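import Mathlib

/-!
# Univariate real polynomials: nonnegativity, sums of squares, real roots
-/

set_option autoImplicit false

namespace Pool.Agent.Q107.HF

open Polynomial

/-- `F` is a sum of squares of polynomials of degree at most `n` -/
def SosD (n : ℕ) (F : ℝ[X]) : Prop :=
  ∃ (m : ℕ) (g : Fin m → ℝ[X]), (∀ i, (g i).natDegree ≤ n) ∧ F = ∑ i, g i * g i

lemma nonneg_of_ne {G : ℝ[X]} (r : ℝ) (h : ∀ x, x ≠ r → 0 ≤ G.eval x) : 0 ≤ G.eval r := by
  have h1 : closure ({r}ᶜ : Set ℝ) ⊆ {x | 0 ≤ G.eval x} :=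
    closure_minimal (fun x hx => h x hx) (isClosed_le continuous_const G.continuous)
  have h2 : r ∈ closure ({r}ᶜ : Set ℝ) := (dense_compl_singleton r) r
  exact h1 h2

/-- a root of a nonnegative polynomial is a double root -/
lemma root_sq {F : ℝ[X]} (h : ∀ x, 0 ≤ F.eval x) {r : ℝ} (hr : F.eval r = 0) :
    ∃ G, F = (X - C r) ^ 2 * G ∧ ∀ x, 0 ≤ G.eval x := by
  by_cases hF : F = 0
  · exact ⟨0, by simp [hF], fun x => by simp⟩
  have h1 : IsLocalMin (fun x => F.eval x) r := by
    refine Filter.Eventually.of_forall fun x => ?_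
    simp only [hr]
    exact h x
  have h2 := h1.deriv_eq_zero
  rw [Polynomial.deriv] at h2
  have h3 : 1 < F.rootMultiplicity r := (one_lt_rootMultiplicity_iff_isRoot hF).2 ⟨hr, h2⟩
  obtain ⟨G, hG⟩ := (le_rootMultiplicity_iff hF).1 h3
  refine ⟨G, hG, ?_⟩
  have h4 : ∀ x, x ≠ r → 0 ≤ G.eval x := by
    intro x hx
    have h5 := h x
    rw [hG] at h5
    simp only [Nat.succ_eq_add_one, Nat.reduceAdd, eval_mul, eval_pow, eval_sub,
      eval_X, eval_C] at h5
    have h6 : 0 < (x - r) ^ 2 := by
      have := sub_ne_zero.2 hx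
      positivity
    exact nonneg_of_mul_nonneg_right h5 h6
  intro x
  by_cases hx : x = r
  · rw [hx]; exact nonneg_of_ne r h4
  · exact h4 x hx

lemma SosD.mono {n m : ℕ} (hnm : n ≤ m) {F : ℝ[X]} (h : SosD n F) : SosD m F := by
  obtain ⟨k, g, h1, h2⟩ := h
  exact ⟨k, g, fun i => (h1 i).trans hnm, h2⟩

/-- **Nonnegative univariate polynomials are sums of squares.** -/
theorem sosD_of_nonneg (n : ℕ) : ∀ F : ℝ[X], F.natDegree ≤ 2 * n → (∀ x, 0 ≤ F.eval x) →
    SosD n F := by
  induction n with
  | zero =>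
    intro F hF h
    have h1 : F = C (F.coeff 0) := eq_C_of_natDegree_le_zero (by simpa using hF)
    have h2 : 0 ≤ F.coeff 0 := by
      have := h 0
      rw [h1, eval_C] at this
      exact this
    refine ⟨1, fun _ => C (Real.sqrt (F.coeff 0)), fun _ => by simp, ?_⟩
    rw [Fin.sum_univ_one, ← C_mul, Real.mul_self_sqrt h2]
    exact h1
  | succ n ih =>
    intro F hF h
    obtain ⟨r, hr⟩ := exists_forall_norm_le F
    set m := F.eval r with hm
    have hm0 : 0 ≤ m := h r
    have h1 : ∀ x, 0 ≤ (F - C m).eval x := by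
      intro x
      have := hr x
      rw [Real.norm_of_nonneg (h r), Real.norm_of_nonneg (h x)] at this
      rw [eval_sub, eval_C]
      linarith
    obtain ⟨G, hG, hG0⟩ := root_sq h1 (r := r) (by rw [eval_sub, eval_C]; simp [hm])
    have hdeg : G.natDegree ≤ 2 * n := by
      by_cases hG' : G = 0
      · simp [hG']
      have h2 : ((X - C r) ^ 2 * G).natDegree = 2 + G.natDegree := by
        rw [natDegree_mul (pow_ne_zero _ (X_sub_C_ne_zero r)) hG', natDegree_pow,
          natDegree_X_sub_C]
      have h3 : (F - C m).natDegree ≤ 2 * (n + 1) :=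
        (natDegree_sub_le _ _).trans (max_le hF (by simp))
      rw [hG, h2] at h3
      omega
    obtain ⟨k, g, hg1, hg2⟩ := ih G hdeg hG0
    refine ⟨k + 1, Fin.cons (C (Real.sqrt m)) (fun i => (X - C r) * g i), ?_, ?_⟩
    · intro i
      refine Fin.cases ?_ (fun i => ?_) i
      · simp
      · rw [Fin.cons_succ]
        refine (natDegree_mul_le).trans ?_
        rw [natDegree_X_sub_C]
        have := hg1 i
        omega
    · rw [Fin.sum_univ_succ]
      simp only [Fin.cons_zero, Fin.cons_succ]
      rw [← C_mul, Real.mul_self_sqrt hm0]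
      have e : F = C m + (F - C m) := by ring
      rw [e, hG, hg2, Finset.mul_sum]
      congr 1
      refine Finset.sum_congr rfl fun i _ => ?_
      ring

/-- the double roots of a nonnegative polynomial -/
theorem decomp (n : ℕ) : ∀ F : ℝ[X], F.natDegree ≤ n → F ≠ 0 → (∀ x, 0 ≤ F.eval x) →
    (∀ r : ℝ, ¬ (X - C r) ^ 4 ∣ F) →
    ∃ (S : Finset ℝ) (q : ℝ[X]), F = (∏ r ∈ S, (X - C r)) ^ 2 * q ∧ ∀ x, 0 < q.eval x := by
  induction n using Nat.strong_induction_on with
  | _ n ih =>
    intro F hn hF h h4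
    by_cases hroot : ∃ r, F.eval r = 0
    · obtain ⟨r, hr⟩ := hroot
      obtain ⟨G, hG, hG0⟩ := root_sq h hr
      have hG1 : G ≠ 0 := by
        rintro rfl
        exact hF (by rw [hG, mul_zero])
      have h2 : F.natDegree = 2 + G.natDegree := by
        rw [hG, natDegree_mul (pow_ne_zero _ (X_sub_C_ne_zero r)) hG1, natDegree_pow,
          natDegree_X_sub_C]
      have hGr : G.eval r ≠ 0 := by
        intro h0
        obtain ⟨G', hG', _⟩ := root_sq hG0 h0
        refine h4 r ⟨G', ?_⟩
        rw [hG, hG']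
        ring
      obtain ⟨S, q, hS, hq⟩ := ih G.natDegree (by omega) G le_rfl hG1 hG0 (fun s hs => h4 s
        (hs.trans (by rw [hG]; exact Dvd.intro_left _ rfl)))
      have hrS : r ∉ S := by
        intro hrS
        apply hGr
        rw [hS, eval_mul, eval_pow, eval_prod, Finset.prod_eq_zero hrS (by simp)]
        simp
      refine ⟨insert r S, q, ?_, hq⟩
      rw [Finset.prod_insert hrS, hG, hS]
      ring
    · push Not at hroot
      exact ⟨∅, F, by simp, fun x => lt_of_le_of_ne (h x) (hroot x).symm⟩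

/-- domination by a positive polynomial -/
theorem dominate {q G : ℝ[X]} (hq : ∀ x, 0 < q.eval x) (hd : G.natDegree ≤ q.natDegree) :
    ∃ ε : ℝ, 0 < ε ∧ ∀ x, ε * G.eval x ≤ q.eval x := by
  have hq0 : q ≠ 0 := by
    rintro rfl
    simpa using hq 0
  have key : ∀ q G : ℝ[X], (∀ x, 0 < q.eval x) → G.natDegree ≤ q.natDegree →
      ∃ K R : ℝ, ∀ x, R ≤ x → |G.eval x| ≤ K * q.eval x := by
    intro q G hq hd
    have hq0 : q ≠ 0 := by
      rintro rfl
      simpa using hq 0
    have hdeg : G.degree ≤ q.degree := by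
      rw [degree_eq_natDegree hq0]
      exact degree_le_of_natDegree_le hd
    obtain ⟨K, hK⟩ := (isBigO_atTop_of_degree_le G q hdeg).bound
    obtain ⟨R, hR⟩ := Filter.eventually_atTop.1 hK
    refine ⟨K, R, fun x hx => ?_⟩
    have := hR x hx
    rwa [Real.norm_eq_abs, Real.norm_of_nonneg (hq x).le] at this
  obtain ⟨K1, R1, h1⟩ := key q G hq hd
  obtain ⟨K2, R2, h2⟩ := key (q.comp (-X)) (G.comp (-X)) (fun x => by simpa using hq (-x))
    (by rw [natDegree_comp, natDegree_comp]; simpa using hd)
  obtain ⟨K3, h3⟩ := (isCompact_Icc (a := -R2) (b := R1)).exists_bound_of_continuousOn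
    (f := fun x => G.eval x / q.eval x)
    ((G.continuous.div q.continuous fun x => (hq x).ne').continuousOn)
  set K : ℝ := |K1| + |K2| + |K3| + 1 with hK
  have hK0 : 0 < K := by positivity
  have hall : ∀ x, |G.eval x| ≤ K * q.eval x := by
    intro x
    have hqx := hq x
    rcases le_total R1 x with hx | hx
    · refine (h1 x hx).trans (mul_le_mul_of_nonneg_right ?_ hqx.le)
      have := le_abs_self K1
      have := abs_nonneg K2
      have := abs_nonneg K3
      linarith
    · rcases le_total x (-R2) with hx2 | hx2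
      · have h4 := h2 (-x) (by linarith)
        simp only [eval_comp, eval_neg, eval_X, neg_neg] at h4
        refine h4.trans (mul_le_mul_of_nonneg_right ?_ hqx.le)
        have := le_abs_self K2
        have := abs_nonneg K1
        have := abs_nonneg K3
        linarith
      · have h4 := h3 x ⟨hx2, hx⟩
        rw [norm_div, Real.norm_eq_abs, Real.norm_of_nonneg hqx.le, div_le_iff₀ hqx] at h4
        refine h4.trans (mul_le_mul_of_nonneg_right ?_ hqx.le)
        have := le_abs_self K3
        have := abs_nonneg K1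
        have := abs_nonneg K2
        linarith
  refine ⟨K⁻¹, by positivity, fun x => ?_⟩
  rw [inv_mul_le_iff₀ hK0]
  exact (le_abs_self _).trans (hall x)

/-- a positive polynomial has even degree -/
theorem even_degree {q : ℝ[X]} (hq : ∀ x, 0 ≤ q.eval x) : Even q.natDegree := by
  by_contra hodd
  rw [Nat.not_even_iff_odd] at hodd
  obtain ⟨n, hn⟩ := hodd
  obtain ⟨m, g, hg, e⟩ := sosD_of_nonneg (n + 1) q (by omega) hq
  have h1 : q.coeff ((n + 1) + (n + 1)) = 0 := coeff_eq_zero_of_natDegree_lt (by omega)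
  rw [e, finsetSum_coeff] at h1
  have h2 : ∀ i, (g i * g i).coeff ((n + 1) + (n + 1)) = (g i).coeff (n + 1) ^ 2 := by
    intro i
    rw [coeff_mul_add_eq_of_natDegree_le (hg i) (hg i), sq]
  simp only [h2] at h1
  have h3 : ∀ i, (g i).natDegree ≤ n := by
    intro i
    have h4 := (Finset.sum_eq_zero_iff_of_nonneg (fun j _ => sq_nonneg _)).1 h1 i
      (Finset.mem_univ i)
    have h5 : (g i).coeff (n + 1) = 0 := by simpa using h4
    by_contra hc
    have h6 : (g i).natDegree = n + 1 := le_antisymm (hg i) (by omega)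
    have h7 : g i = 0 := by
      rw [← leadingCoeff_eq_zero, leadingCoeff, h6, h5]
    rw [h7] at h6
    simp at h6
  have h4 : q.natDegree ≤ 2 * n := by
    rw [e]
    refine natDegree_sum_le_of_forall_le _ _ fun i _ => ?_
    refine natDegree_mul_le.trans ?_
    have := h3 i
    omega
  omega

/-- all roots are real and simple -/
def RR (p : ℝ[X]) : Prop := p ≠ 0 ∧ p.roots.toFinset.card = p.natDegree

lemma RR.derivative {p : ℝ[X]} (h : RR p) (hd : p.natDegree ≠ 0) : RR (derivative p) := by
  have h1 : (Polynomial.derivative p).natDegree = p.natDegree - 1 := natDegree_derivative p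
  have h0 : Polynomial.derivative p ≠ 0 := by
    intro h0
    exact hd (derivative_eq_zero.1 h0)
  refine ⟨h0, le_antisymm ?_ ?_⟩
  · exact (Multiset.toFinset_card_le _).trans (card_roots' _)
  · have := card_roots_toFinset_le_derivative p
    rw [h.2] at this
    omega

lemma RR.iterate {p : ℝ[X]} (h : RR p) (k : ℕ) (hk : k ≤ p.natDegree) :
    RR (Polynomial.derivative^[k] p) ∧ (Polynomial.derivative^[k] p).natDegree =
      p.natDegree - k := by
  induction k with
  | zero => exact ⟨h, rfl⟩
  | succ k ih =>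
    obtain ⟨h1, h2⟩ := ih (by omega)
    rw [Function.iterate_succ_apply']
    have h3 : (Polynomial.derivative^[k] p).natDegree ≠ 0 := by omega
    exact ⟨h1.derivative h3, by rw [natDegree_derivative]; omega⟩

lemma RR.coprime {p : ℝ[X]} (h : RR p) : IsCoprime p (Polynomial.derivative p) := by
  have h1 : p.roots.card = p.natDegree :=
    le_antisymm (card_roots' p) (h.2 ▸ Multiset.toFinset_card_le _)
  have h2 : p.Splits := splits_iff_card_roots.2 h1
  have h3 : p.roots.Nodup := by
    rw [← Multiset.dedup_card_eq_card_iff_nodup, h1, ← h.2]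
    rfl
  exact (nodup_roots_iff_of_splits h.1 h2).1 h3

lemma RR.prod (S : Finset ℝ) : RR (∏ r ∈ S, (X - C r)) ∧
    (∏ r ∈ S, (X - C r) : ℝ[X]).natDegree = S.card := by
  have h1 : (∏ r ∈ S, (X - C r) : ℝ[X]).natDegree = S.card := by
    rw [natDegree_prod _ _ fun r _ => X_sub_C_ne_zero r]
    simp
  refine ⟨⟨Finset.prod_ne_zero_iff.2 fun r _ => X_sub_C_ne_zero r, ?_⟩, h1⟩
  rw [h1, roots_prod_X_sub_C]
  simp

/-- representation by a coprime pair with degree control -/
theorem represent {A B : ℝ[X]} {a j : ℕ} (hA : A.natDegree = a) (hA0 : A ≠ 0)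
    (hB : B.natDegree ≤ a) (h : IsCoprime A B) (hj : 2 * a ≤ j + 1) {F : ℝ[X]}
    (hF : F.natDegree ≤ j) :
    ∃ u v : ℝ[X], F = A * u + B * v ∧ u.natDegree ≤ j - a ∧ v.natDegree ≤ j - a := by
  obtain ⟨α, β, hab⟩ := h
  set v := (F * β) % A with hv
  set u := F * α + B * ((F * β) / A) with hu
  have e : F = A * u + B * v := by
    have h1 := EuclideanDomain.div_add_mod (F * β) A
    calc F = F * (α * A + β * B) := by rw [hab, mul_one]
      _ = A * (F * α) + B * (F * β) := by ring
      _ = A * (F * α) + B * (A * ((F * β) / A) + (F * β) % A) := by rw [h1]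
      _ = _ := by rw [hu, hv]; ring
  have hv1 : v.natDegree ≤ a - 1 := by
    rcases Nat.eq_zero_or_pos a with h0 | h0
    · have : v = 0 := by
        have h1 : A.degree = 0 := by rw [degree_eq_natDegree hA0, hA, h0]; rfl
        have h2 : v.degree < A.degree := degree_mod_lt _ hA0
        rw [h1] at h2
        exact degree_eq_bot.1 (Nat.WithBot.lt_zero_iff.1 h2)
      simp [this]
    · have h2 : v.natDegree < A.natDegree := natDegree_mod_lt _ (by omega)
      omega
  refine ⟨u, v, e, ?_, by omega⟩
  by_cases hu0 : u = 0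
  · simp [hu0]
  have h3 : (A * u).natDegree ≤ j := by
    have h4 : A * u = F - B * v := by rw [e]; ring
    rw [h4]
    refine (natDegree_sub_le _ _).trans (max_le hF (natDegree_mul_le.trans ?_))
    by_cases hv0 : a = 0
    · have : v = 0 := by
        have h1 : A.degree = 0 := by rw [degree_eq_natDegree hA0, hA, hv0]; rfl
        have h2 : v.degree < A.degree := degree_mod_lt _ hA0
        rw [h1] at h2
        exact degree_eq_bot.1 (Nat.WithBot.lt_zero_iff.1 h2)
      rw [this]
      simp
      omega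
    · omega
  rw [natDegree_mul hA0 hu0, hA] at h3
  omega

end Pool.Agent.Q107.HF
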