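import Pool.Agent.Q107.HF.Riesz
import Pool.Agent.Q107.HF.Uni

/-!
# The derivatives of a form with simple real zeros generate everything
-/

set_option autoImplicit false

namespace Pool.Agent.Q107.HF

open Finset MvPolynomial

/-- all monomials have degree less than `a` -/
def Low (y : P2) (a : ℕ) : Prop := ∀ m, coeff m y ≠ 0 → m 0 + m 1 < a

lemma low_zero_iff {y : P2} : Low y 0 ↔ y = 0 := by
  constructor
  · intro h
    ext m
    by_contra hc
    exact absurd (h m (by simpa using hc)) (Nat.not_lt_zero _)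
  · rintro rfl m hm
    simp at hm

lemma low_succ_iff {y : P2} {a : ℕ} : Low y (a + 1) ↔ y.totalDegree ≤ a := by
  rw [td_le]
  exact forall_congr' fun m => imp_congr_right fun _ => Nat.lt_succ_iff

lemma Low.add {x y : P2} {a : ℕ} (hx : Low x a) (hy : Low y a) : Low (x + y) a := by
  intro m hm
  rw [coeff_add] at hm
  by_cases h : coeff m x = 0
  · rw [h, zero_add] at hm
    exact hy m hm
  · exact hx m h

lemma Low.neg {x : P2} {a : ℕ} (hx : Low x a) : Low (-x) a := by
  intro m hm
  rw [coeff_neg] at hm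
  exact hx m (by simpa using hm)

lemma Low.sub {x y : P2} {a : ℕ} (hx : Low x a) (hy : Low y a) : Low (x - y) a := by
  rw [sub_eq_add_neg]
  exact hx.add hy.neg

lemma Low.smul {x : P2} {a : ℕ} (hx : Low x a) (c : ℝ) : Low (c • x) a := by
  intro m hm
  rw [coeff_smul] at hm
  exact hx m (right_ne_zero_of_mul hm)

lemma Low.sum {ι : Type*} (s : Finset ι) {f : ι → P2} {a : ℕ} (h : ∀ i ∈ s, Low (f i) a) :
    Low (∑ i ∈ s, f i) a := by
  classical
  induction s using Finset.induction_on with
  | empty => intro m hm; simp at hm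
  | insert i s hi ih =>
    rw [sum_insert hi]
    exact (h i (mem_insert_self _ _)).add (ih fun j hj => h j (mem_insert_of_mem hj))

lemma Low.mul {x u : P2} {a b : ℕ} (hx : Low x a) (hu : u.totalDegree ≤ b) :
    Low (x * u) (a + b) := by
  intro m hm
  rw [coeff_mul] at hm
  obtain ⟨p, hp, h⟩ := exists_ne_zero_of_sum_ne_zero hm
  have h1 := hx _ (left_ne_zero_of_mul h)
  have h2 := td_le.1 hu _ (right_ne_zero_of_mul h)
  have h3 : p.1 + p.2 = m := HasAntidiagonal.mem_antidiagonal.1 hp
  have h4 : p.1 0 + p.2 0 = m 0 := by rw [← h3]; rfl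
  have h5 : p.1 1 + p.2 1 = m 1 := by rw [← h3]; rfl
  omega

lemma low_iter (i : Fin 2) {x : P2} {a k : ℕ} (hx : x.totalDegree ≤ a) (hk : 1 ≤ k) :
    Low ((pderiv i)^[k] x) a := by
  intro m hm
  by_cases h : a < k
  · rw [iter_pderiv_zero i (by omega)] at hm
    simp at hm
  · have := td_le.1 (iter_pderiv_le i hx k) m hm
    omega

lemma E_low (i : Fin 2) {x : P2} {a M : ℕ} (hx : x.totalDegree ≤ a) (hM : 1 ≤ M) :
    Low (E (pderiv i) M x - x) a := by
  obtain ⟨N, rfl⟩ : ∃ N, M = N + 1 := ⟨M - 1, by omega⟩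
  unfold E
  rw [sum_range_succ']
  simp only [mul_zero, Function.iterate_zero, id_eq, Nat.factorial_zero, Nat.cast_one, inv_one,
    one_smul, add_sub_cancel_right]
  exact Low.sum _ fun k _ => (low_iter i hx (by omega)).smul _

lemma td_E (i : Fin 2) {x : P2} {a M : ℕ} (hx : x.totalDegree ≤ a) :
    (E (pderiv i) M x).totalDegree ≤ a := by
  refine td_sum_le _ _ fun k _ => ?_
  refine (totalDegree_smul_le _ _).trans ((iter_pderiv_le i hx _).trans (by omega))

lemma H_low {x : P2} {a M : ℕ} (hx : x.totalDegree ≤ a) (hM : 1 ≤ M) :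
    Low (H M x - x) a := by
  have h1 := E_low 1 hx hM
  have h2 := E_low 0 (td_E 1 (M := M) hx) hM
  have e : H M x - x = (E (pderiv 0) M (E (pderiv 1) M x) - E (pderiv 1) M x) +
      (E (pderiv 1) M x - x) := by
    unfold H
    ring
  rw [e]
  exact h2.add h1

lemma td_H {x : P2} {a M : ℕ} (hx : x.totalDegree ≤ a) : (H M x).totalDegree ≤ a :=
  td_E 0 (td_E 1 hx)

lemma pd0_hz {F : Polynomial ℝ} {n : ℕ} (hF : F.natDegree ≤ n) :
    pderiv 0 (F.homogenize n) = (Polynomial.derivative F).homogenize (n - 1) := by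
  ext m
  rw [coeff_pderiv, Polynomial.coeff_homogenize, Polynomial.coeff_homogenize,
    Polynomial.coeff_derivative]
  simp only [Finsupp.add_apply, Finsupp.single_apply, if_true, Fin.isValue, zero_ne_one,
    if_false, add_zero]
  rcases Nat.eq_zero_or_pos n with h0 | h0
  · subst h0
    rw [if_neg (by omega), zero_mul]
    split_ifs with h1
    · rw [Polynomial.coeff_eq_zero_of_natDegree_lt (by omega), zero_mul]
    · rfl
  · by_cases h1 : m 0 + m 1 = n - 1
    · rw [if_pos (by omega), if_pos h1]
    · rw [if_neg (by omega), if_neg h1, zero_mul]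

lemma pd1_hz {F : Polynomial ℝ} {n : ℕ} (hF : F.natDegree ≤ n) :
    pderiv 1 (F.homogenize n) =
      (Polynomial.C (n : ℝ) * F - Polynomial.X * Polynomial.derivative F).homogenize (n - 1) := by
  ext m
  have hc : ∀ i, (Polynomial.C (n : ℝ) * F - Polynomial.X * Polynomial.derivative F).coeff i =
      ((n : ℝ) - i) * F.coeff i := by
    intro i
    rw [Polynomial.coeff_sub, Polynomial.coeff_C_mul]
    cases i with
    | zero => simp
    | succ i =>
      rw [Polynomial.coeff_X_mul, Polynomial.coeff_derivative]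
      push_cast
      ring
  rw [coeff_pderiv, Polynomial.coeff_homogenize, Polynomial.coeff_homogenize, hc]
  simp only [Finsupp.add_apply, Finsupp.single_apply, if_true, Fin.isValue, one_ne_zero,
    if_false, add_zero]
  rcases Nat.eq_zero_or_pos n with h0 | h0
  · subst h0
    rw [if_neg (by omega), zero_mul]
    split_ifs with h1
    · have : m 0 = 0 := by omega
      rw [this]
      simp
    · rfl
  · by_cases h1 : m 0 + m 1 = n - 1
    · rw [if_pos (by omega), if_pos h1]
      have : (n : ℝ) = m 0 + m 1 + 1 := by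
        have : n = m 0 + m 1 + 1 := by omega
        exact_mod_cast this
      rw [this]
      ring
    · rw [if_neg (by omega), if_neg h1, zero_mul]

lemma natDegree_iter {F : Polynomial ℝ} {n : ℕ} (hF : F.natDegree ≤ n) (k : ℕ) :
    (Polynomial.derivative^[k] F).natDegree ≤ n - k :=
  (Polynomial.natDegree_iterate_derivative F k).trans (by omega)

lemma pd0_iter_hz {F : Polynomial ℝ} {n : ℕ} (hF : F.natDegree ≤ n) (k : ℕ) :
    (pderiv 0)^[k] (F.homogenize n) = (Polynomial.derivative^[k] F).homogenize (n - k) := by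
  induction k with
  | zero => rfl
  | succ k ih =>
    rw [Function.iterate_succ_apply', ih, pd0_hz (natDegree_iter hF k),
      Function.iterate_succ_apply']
    congr 1

/-- forms are homogenizations -/
lemma exists_hz {x : P2} {j : ℕ} (hx : x.IsHomogeneous j) :
    ∃ F : Polynomial ℝ, F.natDegree ≤ j ∧ F.homogenize j = x := by
  refine ⟨aeval ![Polynomial.X, 1] x, ?_, Polynomial.homogenize_eq_of_isHomogeneous hx rfl⟩
  rw [x.as_sum, map_sum]
  refine Polynomial.natDegree_sum_le_of_forall_le _ _ fun m hm => ?_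
  have h1 := hx (mem_support_iff.1 hm)
  rw [Finsupp.weight_apply, Finsupp.sum_fintype _ _ (by simp), Fin.sum_univ_two] at h1
  simp only [Pi.one_apply, smul_eq_mul, mul_one] at h1
  rw [aeval_monomial, Finsupp.prod_fintype _ _ (fun _ => pow_zero _), Fin.prod_univ_two]
  simp only [Fin.isValue, Matrix.cons_val_zero, Matrix.cons_val_one, one_pow, mul_one,
    Polynomial.algebraMap_eq]
  exact (Polynomial.natDegree_C_mul_X_pow_le _ _).trans (by omega)

lemma low_hz {x : P2} {a : ℕ} (hx : x.totalDegree ≤ a) :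
    Low (x - homogeneousComponent a x) a := by
  intro m hm
  rw [coeff_sub, coeff_homogeneousComponent] at hm
  have h1 : m.degree = m 0 + m 1 := by
    rw [Finsupp.degree_eq_sum, Fin.sum_univ_two]
  rw [h1] at hm
  by_cases h : m 0 + m 1 = a
  · rw [if_pos h, sub_self] at hm
    exact absurd rfl hm
  · rw [if_neg h, sub_zero] at hm
    have := td_le.1 hx m hm
    omega

lemma td_hz (F : Polynomial ℝ) (n : ℕ) : (F.homogenize n).totalDegree ≤ n :=
  (Polynomial.isHomogeneous_homogenize F).totalDegree_le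

/-- the pair of derivatives used in degree `a` -/
lemma pair {d : ℕ} (hd : 1 ≤ d) {Q : Polynomial ℝ} (hQ : RR Q)
    (hdeg : Q.natDegree = d ∨ Q.natDegree = d - 1) {a : ℕ} (ha : a < d) :
    ∃ A B : Polynomial ℝ, (pderiv 0)^[d - a] (Q.homogenize d) = A.homogenize a ∧
      (pderiv 0)^[d - a - 1] (pderiv 1 (Q.homogenize d)) = B.homogenize a ∧
      A.natDegree ≤ a ∧ B.natDegree ≤ a ∧
      ((A.natDegree = a ∧ A ≠ 0) ∨ (B.natDegree = a ∧ B ≠ 0)) ∧ IsCoprime A B := by
  have hQd : Q.natDegree ≤ d := by omega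
  obtain ⟨k, hk⟩ : ∃ k, d = a + 1 + k := ⟨d - a - 1, by omega⟩
  set R := Polynomial.derivative^[k] Q with hR
  have hRR := hQ.iterate k (by omega)
  rw [← hR] at hRR
  have hRd : R.natDegree ≤ a + 1 := by omega
  have hcop := hRR.1.coprime
  have hBc : ∀ i, (Polynomial.C ((a + 1 : ℕ) : ℝ) * R -
      Polynomial.X * Polynomial.derivative R).coeff i = (((a + 1 : ℕ) : ℝ) - i) * R.coeff i := by
    intro i
    rw [Polynomial.coeff_sub, Polynomial.coeff_C_mul]
    cases i with
    | zero => simp
    | succ i =>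
      rw [Polynomial.coeff_X_mul, Polynomial.coeff_derivative]
      push_cast
      ring
  refine ⟨Polynomial.derivative R, Polynomial.C ((a + 1 : ℕ) : ℝ) * R -
    Polynomial.X * Polynomial.derivative R, ?_, ?_, ?_, ?_, ?_, ?_⟩
  · have e : d - a = k + 1 := by omega
    rw [e, pd0_iter_hz hQd, Function.iterate_succ_apply', ← hR]
    congr 1
    omega
  · have e : d - a - 1 = k := by omega
    rw [e]
    have h1 := pcomm_iter 0 1 k 1 (Q.homogenize d)
    simp only [Function.iterate_one] at h1
    rw [h1, pd0_iter_hz hQd, ← hR]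
    have e2 : d - k = a + 1 := by omega
    rw [e2, pd1_hz hRd]
    congr 1
  · exact (Polynomial.natDegree_derivative_le R).trans (by omega)
  · rw [Polynomial.natDegree_le_iff_coeff_eq_zero]
    intro i hi
    rw [hBc]
    by_cases h : i = a + 1
    · rw [h, sub_self, zero_mul]
    · rw [Polynomial.coeff_eq_zero_of_natDegree_lt (by omega), mul_zero]
  · rcases hdeg with h | h
    · left
      have h1 : R.natDegree = a + 1 := by omega
      have h2 : (Polynomial.derivative R).natDegree = a := by
        rw [Polynomial.natDegree_derivative]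
        omega
      refine ⟨h2, fun h0 => ?_⟩
      have := Polynomial.derivative_eq_zero.1 h0
      omega
    · right
      have h1 : R.natDegree = a := by omega
      have h2 : (Polynomial.C ((a + 1 : ℕ) : ℝ) * R -
          Polynomial.X * Polynomial.derivative R).coeff a ≠ 0 := by
        rw [hBc]
        refine mul_ne_zero (by push_cast; simp) ?_
        rw [← h1]
        exact Polynomial.leadingCoeff_ne_zero.2 hRR.1.1
      refine ⟨le_antisymm ?_ (Polynomial.le_natDegree_of_ne_zero h2), fun h0 => ?_⟩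
      · rw [Polynomial.natDegree_le_iff_coeff_eq_zero]
        intro i hi
        rw [hBc, Polynomial.coeff_eq_zero_of_natDegree_lt (by omega), mul_zero]
      · rw [h0] at h2
        simp at h2
  · obtain ⟨α, β, hab⟩ := hcop
    have ha1 : ((a + 1 : ℕ) : ℝ) ≠ 0 := by positivity
    refine ⟨β + α * Polynomial.C (((a + 1 : ℕ) : ℝ)⁻¹) * Polynomial.X,
      α * Polynomial.C (((a + 1 : ℕ) : ℝ)⁻¹), ?_⟩
    have hc : Polynomial.C (((a + 1 : ℕ) : ℝ)⁻¹) * Polynomial.C ((a + 1 : ℕ) : ℝ) =
        (1 : Polynomial ℝ) := by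
      rw [← map_mul, inv_mul_cancel₀ ha1, map_one]
    linear_combination hab + (α * R) * hc

/-- **Generation.** -/
theorem gen {d M : ℕ} (hd : 1 ≤ d) (hM : d < M) {Q : Polynomial ℝ} (hQ : RR Q)
    (hdeg : Q.natDegree = d ∨ Q.natDegree = d - 1) (V : Submodule ℝ P2)
    (hV : ∀ p : ℕ × ℕ, p ∈ (range M ×ˢ range M).erase (0, 0) → ∀ u : P2, u.totalDegree ≤ d - 1 →
      G M p.1 p.2 (Q.homogenize d) * u ∈ V) :
    ∀ j : ℕ, j ≤ 2 * (d - 1) + 1 → ∀ x : P2, Low x j → x ∈ V := by
  intro j
  induction j with
  | zero =>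
    intro _ x hx
    rw [low_zero_iff.1 hx]
    exact V.zero_mem
  | succ j ih =>
    intro hj x hx
    have hxd := low_succ_iff.1 hx
    have hx0 := ih (by omega) _ (low_hz hxd)
    suffices h : homogeneousComponent j x ∈ V by
      have := V.add_mem hx0 h
      rwa [sub_add_cancel] at this
    obtain ⟨F, hF, hFx⟩ := exists_hz (homogeneousComponent_isHomogeneous j x)
    rw [← hFx]
    obtain ⟨a, ha1, ha2, ha3, ha4⟩ : ∃ a, a < d ∧ 2 * a ≤ j + 1 ∧ j - a ≤ d - 1 ∧ a ≤ j := by
      refine ⟨min (d - 1) ((j + 1) / 2), ?_, ?_, ?_, ?_⟩ <;> omega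
    obtain ⟨A, B, hA, hB, hAd, hBd, hor, hcop⟩ := pair hd hQ hdeg ha1
    obtain ⟨u, v, hF', hu, hv⟩ : ∃ u v : Polynomial ℝ, F = A * u + B * v ∧
        u.natDegree ≤ j - a ∧ v.natDegree ≤ j - a := by
      rcases hor with ⟨h1, h2⟩ | ⟨h1, h2⟩
      · exact represent h1 h2 hBd hcop ha2 hF
      · obtain ⟨u, v, h3, h4, h5⟩ := represent h1 h2 hAd hcop.symm ha2 hF
        exact ⟨v, u, by rw [h3]; ring, h5, h4⟩
    have e : F.homogenize j = A.homogenize a * u.homogenize (j - a) +
        B.homogenize a * v.homogenize (j - a) := by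
      rw [← Polynomial.homogenize_mul _ _ hAd hu, ← Polynomial.homogenize_mul _ _ hBd hv,
        ← Polynomial.homogenize_add, ← hF']
      congr 1
      omega
    have hGA : G M (d - a) 0 (Q.homogenize d) = H M (A.homogenize a) := by
      unfold G
      rw [Function.iterate_zero, id_eq, hA]
    have hGB : G M (d - a - 1) 1 (Q.homogenize d) = H M (B.homogenize a) := by
      unfold G
      rw [Function.iterate_one, hB]
    have mA := hV (d - a, 0) (by
      rw [mem_erase, mem_product, mem_range, mem_range, Ne, Prod.mk.injEq]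
      simp only
      omega) (u.homogenize (j - a)) ((td_hz _ _).trans ha3)
    have mB := hV (d - a - 1, 1) (by
      rw [mem_erase, mem_product, mem_range, mem_range, Ne, Prod.mk.injEq]
      simp only
      omega) (v.homogenize (j - a)) ((td_hz _ _).trans ha3)
    simp only at mA mB
    rw [hGA] at mA
    rw [hGB] at mB
    have lA := (H_low (M := M) (td_hz A a) (by omega)).mul (td_hz u (j - a))
    have lB := (H_low (M := M) (td_hz B a) (by omega)).mul (td_hz v (j - a))
    rw [Nat.add_sub_cancel' ha4] at lA lB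
    have nA := ih (by omega) _ lA
    have nB := ih (by omega) _ lB
    have e2 : F.homogenize j = (H M (A.homogenize a) * u.homogenize (j - a) +
        H M (B.homogenize a) * v.homogenize (j - a)) -
        ((H M (A.homogenize a) - A.homogenize a) * u.homogenize (j - a) +
          (H M (B.homogenize a) - B.homogenize a) * v.homogenize (j - a)) := by
      rw [e]
      ring
    rw [e2]
    exact V.sub_mem (V.add_mem mA mB) (V.add_mem nA nB)

/-- **The gain.** -/
theorem gain {d M : ℕ} (hd : 1 ≤ d) (hM : d < M) {Q : Polynomial ℝ} (hQ : RR Q)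
    (hdeg : Q.natDegree = d ∨ Q.natDegree = d - 1) :
    ∃ c0 > 0, IsSumSq (H M (Q.homogenize d * Q.homogenize d) -
      H M (Q.homogenize d) * H M (Q.homogenize d) - C c0 * ee (d - 1)) := by
  set g := Q.homogenize d with hg
  set c : ℕ × ℕ → ℝ := fun p => ((2 : ℝ) ^ p.2 / p.2.factorial) * ((2 : ℝ) ^ p.1 / p.1.factorial)
    with hc
  have hcpos : ∀ p, 0 < c p := fun p => by simp only [hc]; positivity
  set w : ℕ × ℕ → P2 := fun p => C (Real.sqrt (c p)) * G M p.1 p.2 g with hw
  have htd : g.totalDegree ≤ d := td_hz _ _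
  have key := interior (d - 1) ((range M ×ˢ range M).erase (0, 0)) w ?_ ?_
  · obtain ⟨c0, hc0, h⟩ := key
    refine ⟨c0, hc0, ?_⟩
    have e : H M (g * g) - H M g * H M g =
        ∑ i ∈ (range M ×ˢ range M).erase (0, 0), w i * w i := by
      have h0 : (0, 0) ∈ range M ×ˢ range M := by
        rw [mem_product, mem_range]
        constructor <;> (simp only; omega)
      have hww : ∀ i, w i * w i = c i • (G M i.1 i.2 g * G M i.1 i.2 g) := by
        intro i
        simp only [hw]
        rw [mul_mul_mul_comm, ← map_mul, Real.mul_self_sqrt (hcpos i).le, smul_eq_C_mul]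
      have h00 : w (0, 0) * w (0, 0) = H M g * H M g := by
        rw [hww]
        simp [hc, G]
      rw [sum_erase_eq_sub h0, h00, H_sq (lt_of_le_of_lt htd hM)]
      congr 1
      rw [sum_comm, sum_product]
      refine sum_congr rfl fun m _ => sum_congr rfl fun n _ => ?_
      rw [hww]
    rw [e]
    exact h
  · intro p hp
    rw [mem_erase, mem_product, mem_range, mem_range] at hp
    have h1 : 1 ≤ p.1 + p.2 := by
      by_contra h
      exact hp.1 (Prod.ext (by simp only; omega) (by simp only; omega))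
    have h2 : (G M p.1 p.2 g).totalDegree ≤ d - 1 := by
      unfold G
      refine td_H ?_
      have h3 := iter_pderiv_le 1 htd p.2
      have h4 := iter_pderiv_le 0 h3 p.1
      omega
    have h5 := td_mul_le (f := C (Real.sqrt (c p))) (a := 0) (totalDegree_C _).le h2
    rw [zero_add] at h5
    exact h5
  · intro x hx
    refine gen hd hM hQ hdeg _ ?_ (2 * (d - 1) + 1) le_rfl x (low_succ_iff.2 hx)
    intro p hp u hu
    refine Submodule.subset_span ⟨p, hp, C ((Real.sqrt (c p))⁻¹) * u, ?_, ?_⟩
    · have h5 := td_mul_le (f := C ((Real.sqrt (c p))⁻¹)) (a := 0) (totalDegree_C _).le hu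
      rw [zero_add] at h5
      exact h5
    · have h6 : (C (Real.sqrt (c p)) * C ((Real.sqrt (c p))⁻¹) : P2) = 1 := by
        rw [← map_mul, mul_inv_cancel₀ (Real.sqrt_pos.2 (hcpos p)).ne', map_one]
      simp only [hw]
      rw [← hg]
      linear_combination (-(G M p.1 p.2 g * u)) * h6

end Pool.Agent.Q107.HF
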