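import Pool.Agent.Q107.HF.Scale
import Pool.Agent.Q107.HF.Gen

/-!
# Absorbing the lower terms
-/

set_option autoImplicit false

namespace Pool.Agent.Q107.HF

open Finset MvPolynomial

lemma fs_split {d : ℕ} (hd : 1 ≤ d) (f : P2) (s : ℝ) :
    fs f (2 * d) s = homogeneousComponent (2 * d) f + C s * homogeneousComponent (2 * d - 1) f +
      C (s ^ 2) * ∑ j ∈ range (2 * d - 1), C (s ^ j) * homogeneousComponent (2 * d - 2 - j) f := by
  obtain ⟨n, hn⟩ : ∃ n, 2 * d = n + 2 := ⟨2 * d - 2, by omega⟩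
  have e4 : ∀ j, C (s ^ (j + 1 + 1)) * homogeneousComponent (2 * d - (j + 1 + 1)) f =
      C (s ^ 2) * (C (s ^ j) * homogeneousComponent (2 * d - 2 - j) f) := by
    intro j
    have e2 : 2 * d - (j + 1 + 1) = 2 * d - 2 - j := by omega
    rw [e2, ← mul_assoc, ← map_mul]
    congr 2
    ring
  have e5 : 2 * d + 1 = (2 * d - 1) + 1 + 1 := by omega
  unfold fs
  rw [e5, sum_range_succ', sum_range_succ', sum_congr rfl (fun j _ => e4 j), ← mul_sum]
  rw [pow_zero, map_one, one_mul, zero_add, pow_one, Nat.sub_zero]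
  ring

lemma C_nonneg_ee {k : ℕ} {c : ℝ} (hc : 0 ≤ c) : IsSumSq (C c * ee k) :=
  sumSq_C_mul hc (IsSumSq.sum fun _ _ => IsSumSq.mul_self _)

/-- the absorption argument -/
theorem core {d M : ℕ} (hd : 1 ≤ d) (hM : d < M) {f : P2} {ε c0 : ℝ} (hε : 0 < ε) (hc0 : 0 < c0)
    {Q a b u0 u1 : P2} (ha : a.totalDegree ≤ d) (hb : b.totalDegree ≤ d)
    (hu0 : u0.totalDegree ≤ d - 1) (hu1 : u1.totalDegree ≤ d - 1)
    {m : ℕ} (g : Fin m → P2) (hg : ∀ i, (g i).totalDegree ≤ d)
    (hgain : IsSumSq (H M (Q * Q) - H M Q * H M Q - C c0 * ee (d - 1)))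
    (h1 : homogeneousComponent (2 * d) f = C ε * (Q * Q) + a * a + b * b + ∑ i, g i * g i)
    (h2 : homogeneousComponent (2 * d - 1) f = 2 * (a * u0 + b * u1)) :
    ∃ s0 > 0, ∀ s : ℝ, 0 < s → s ≤ s0 → IsSumSq (H M (fs f (2 * d) s)) := by
  have hx : ∀ j, (H M (homogeneousComponent (2 * d - 2 - j) f)).totalDegree ≤ 2 * (d - 1) := by
    intro j
    refine td_H ?_
    exact ((homogeneousComponent_isHomogeneous _ _).totalDegree_le).trans (by omega)
  have hy : (H M (-(u0 * u0 + u1 * u1))).totalDegree ≤ 2 * (d - 1) := by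
    refine td_H ?_
    rw [totalDegree_neg]
    refine (totalDegree_add _ _).trans (max_le ?_ ?_)
    · have := td_mul_le hu0 hu0
      omega
    · have := td_mul_le hu1 hu1
      omega
  choose K hK hK' using fun j => dom (d - 1) (hx j)
  obtain ⟨L, hL, hL'⟩ := dom (d - 1) hy
  set Kt : ℝ := ∑ j ∈ range (2 * d - 1), K j + L with hKt
  have hKt0 : 0 ≤ Kt := add_nonneg (sum_nonneg fun j _ => hK j) hL
  refine ⟨min 1 (ε * c0 / (Kt + 1)), lt_min one_pos (by positivity), fun s hs hs0 => ?_⟩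
  have hs1 : s ≤ 1 := hs0.trans (min_le_left _ _)
  have hs2 : s * (Kt + 1) ≤ ε * c0 := by
    have := hs0.trans (min_le_right _ _)
    rwa [le_div_iff₀ (by positivity)] at this
  have hs3 : s ^ 2 * Kt ≤ ε * c0 := by
    have h3 : s ^ 2 ≤ s := by nlinarith
    nlinarith [mul_le_mul_of_nonneg_right h3 hKt0]
  have e : fs f (2 * d) s = ε • (Q * Q) + (a + s • u0) * (a + s • u0) +
      (b + s • u1) * (b + s • u1) + ∑ i, g i * g i +
      (s ^ 2) • (-(u0 * u0 + u1 * u1)) +
      ∑ j ∈ range (2 * d - 1), (s ^ 2 * s ^ j) • homogeneousComponent (2 * d - 2 - j) f := by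
    rw [fs_split hd, h1, h2]
    simp only [smul_eq_C_mul, map_mul, map_pow]
    rw [mul_sum]
    simp only [← mul_assoc]
    ring
  have hA : (a + s • u0).totalDegree < M := by
    refine lt_of_le_of_lt ?_ hM
    refine (totalDegree_add _ _).trans (max_le ha ((totalDegree_smul_le _ _).trans ?_))
    omega
  have hB : (b + s • u1).totalDegree < M := by
    refine lt_of_le_of_lt ?_ hM
    refine (totalDegree_add _ _).trans (max_le hb ((totalDegree_smul_le _ _).trans ?_))
    omega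
  rw [e]
  simp only [H_add, H_smul, H_sum]
  have p1 := sumSq_smul hε.le hgain
  have p1' := sumSq_smul hε.le (IsSumSq.mul_self (H M Q))
  have p2 := H_sumSq_sq hA
  have p3 := H_sumSq_sq hB
  have p4 : IsSumSq (∑ i, H M (g i * g i)) :=
    IsSumSq.sum fun i _ => H_sumSq_sq (lt_of_le_of_lt (hg i) hM)
  have p5 : IsSumSq ((s ^ 2) • (C L * ee (d - 1) + C 1 * H M (-(u0 * u0 + u1 * u1)))) :=
    sumSq_smul (by positivity) (hL' 1 (by simp))
  have p6 : IsSumSq (∑ j ∈ range (2 * d - 1), (s ^ 2) • (C (K j) * ee (d - 1) +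
      C (s ^ j) * H M (homogeneousComponent (2 * d - 2 - j) f))) := by
    refine IsSumSq.sum fun j _ => sumSq_smul (by positivity) (hK' j _ ?_)
    rw [abs_of_nonneg (by positivity)]
    exact pow_le_one₀ hs.le hs1
  have p7 : IsSumSq (C (ε * c0 - s ^ 2 * Kt) * ee (d - 1)) := C_nonneg_ee (by linarith)
  have tot := ((((((p1.add p1').add p2).add p3).add p4).add p5).add p6).add p7
  have e6 : ∑ j ∈ range (2 * d - 1), (s ^ 2) • (C (K j) * ee (d - 1) +
      C (s ^ j) * H M (homogeneousComponent (2 * d - 2 - j) f)) =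
      (s ^ 2) • (C (∑ j ∈ range (2 * d - 1), K j) * ee (d - 1)) +
      ∑ j ∈ range (2 * d - 1), (s ^ 2 * s ^ j) •
        H M (homogeneousComponent (2 * d - 2 - j) f) := by
    simp only [smul_add]
    rw [sum_add_distrib]
    congr 1
    · rw [← smul_sum, ← sum_mul, map_sum]
    · refine sum_congr rfl fun j _ => ?_
      rw [← smul_eq_C_mul, smul_smul]
  rw [e6] at tot
  have e7 : ε • (H M (Q * Q) - H M Q * H M Q - C c0 * ee (d - 1)) + ε • (H M Q * H M Q) +
      H M ((a + s • u0) * (a + s • u0)) + H M ((b + s • u1) * (b + s • u1)) +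
      ∑ i, H M (g i * g i) +
      (s ^ 2) • (C L * ee (d - 1) + C 1 * H M (-(u0 * u0 + u1 * u1))) +
      ((s ^ 2) • (C (∑ j ∈ range (2 * d - 1), K j) * ee (d - 1)) +
        ∑ j ∈ range (2 * d - 1), (s ^ 2 * s ^ j) •
          H M (homogeneousComponent (2 * d - 2 - j) f)) +
      C (ε * c0 - s ^ 2 * Kt) * ee (d - 1) =
      ε • H M (Q * Q) + H M ((a + s • u0) * (a + s • u0)) + H M ((b + s • u1) * (b + s • u1)) +
      ∑ i, H M (g i * g i) + (s ^ 2) • H M (-(u0 * u0 + u1 * u1)) +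
      ∑ j ∈ range (2 * d - 1), (s ^ 2 * s ^ j) •
        H M (homogeneousComponent (2 * d - 2 - j) f) := by
    rw [hKt]
    simp only [smul_eq_C_mul, map_mul, map_sub, map_add, map_one, one_mul]
    ring
  rwa [e7] at tot

end Pool.Agent.Q107.HF
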