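import Mathlib

/-!
# The heat operator of one derivation and products
-/

set_option autoImplicit false

namespace Pool.Agent.Q107.HF

open Finset Polynomial

section bilin

variable {A : Type*} [CommRing A] [Algebra ℝ A] (D : Derivation ℝ A A)

/-- evaluation of a polynomial in two commuting symbols on a product -/
noncomputable def Phi (g h : A) : MvPolynomial (Fin 2) ℝ →ₗ[ℝ] A :=
  Finsupp.lsum ℝ (fun m : Fin 2 →₀ ℕ =>
    (LinearMap.toSpanSingleton ℝ A (D^[m 0] g * D^[m 1] h))) ∘ₗ
    (MvPolynomial.basisMonomials (Fin 2) ℝ).repr.toLinearMap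

lemma Phi_monomial (g h : A) (m : Fin 2 →₀ ℕ) (c : ℝ) :
    Phi D g h (MvPolynomial.monomial m c) = c • (D^[m 0] g * D^[m 1] h) := by
  unfold Phi
  have : (MvPolynomial.basisMonomials (Fin 2) ℝ).repr (MvPolynomial.monomial m c) =
      Finsupp.single m c := by
    have h1 : (MvPolynomial.monomial m c : MvPolynomial (Fin 2) ℝ) =
        c • (MvPolynomial.basisMonomials (Fin 2) ℝ) m := by
      simp [MvPolynomial.smul_monomial]
    rw [h1, map_smul, Module.Basis.repr_self]
    simp
  simp [this]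

lemma Phi_pow (g h : A) (i j : ℕ) :
    Phi D g h (MvPolynomial.X 0 ^ i * MvPolynomial.X 1 ^ j) = D^[i] g * D^[j] h := by
  have : (MvPolynomial.X 0 ^ i * MvPolynomial.X 1 ^ j : MvPolynomial (Fin 2) ℝ) =
      MvPolynomial.monomial (Finsupp.single 0 i + Finsupp.single 1 j) 1 := by
    rw [MvPolynomial.X_pow_eq_monomial, MvPolynomial.X_pow_eq_monomial,
      MvPolynomial.monomial_mul, one_mul]
  rw [this, Phi_monomial]
  simp

lemma D_Phi (g h : A) (p : MvPolynomial (Fin 2) ℝ) :
    D (Phi D g h p) = Phi D g h ((MvPolynomial.X 0 + MvPolynomial.X 1) * p) := by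
  induction p using MvPolynomial.induction_on' with
  | monomial m c =>
    rw [Phi_monomial, add_mul, map_add]
    have h0 : (MvPolynomial.X 0 * MvPolynomial.monomial m c : MvPolynomial (Fin 2) ℝ) =
        MvPolynomial.monomial (m + Finsupp.single 0 1) c := by
      rw [mul_comm, MvPolynomial.X, MvPolynomial.monomial_mul, mul_one]
    have h1 : (MvPolynomial.X 1 * MvPolynomial.monomial m c : MvPolynomial (Fin 2) ℝ) =
        MvPolynomial.monomial (m + Finsupp.single 1 1) c := by
      rw [mul_comm, MvPolynomial.X, MvPolynomial.monomial_mul, mul_one]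
    rw [h0, h1, Phi_monomial, Phi_monomial]
    simp only [Finsupp.add_apply, Finsupp.single_apply, Fin.isValue, if_true, one_ne_zero,
      if_false, add_zero, zero_ne_one, Function.iterate_succ_apply', Derivation.map_smul,
      Derivation.leibniz, smul_eq_mul]
    rw [← smul_add]
    congr 1
    ring
  | add p q hp hq => rw [map_add, map_add, hp, hq, mul_add, map_add]

lemma iter_Phi (g h : A) (p : MvPolynomial (Fin 2) ℝ) (k : ℕ) :
    D^[k] (Phi D g h p) = Phi D g h ((MvPolynomial.X 0 + MvPolynomial.X 1) ^ k * p) := by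
  induction k with
  | zero => simp
  | succ k ih => rw [Function.iterate_succ_apply', ih, D_Phi, pow_succ']; ring_nf

/-- the coefficient form of the product formula -/
lemma iter_mul (g h : A) (N : ℕ) :
    ((N.factorial : ℝ)⁻¹) • D^[2 * N] (g * h) =
      ∑ p ∈ antidiagonal N, ∑ r ∈ antidiagonal p.2,
        ((2 : ℝ) ^ p.1 / (p.1.factorial * r.1.factorial * r.2.factorial)) •
          (D^[p.1 + 2 * r.1] g * D^[p.1 + 2 * r.2] h) := by
  have h0 : g * h = Phi D g h 1 := by
    have := Phi_pow D g h 0 0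
    simpa using this.symm
  have key : ((N.factorial : ℝ)⁻¹) • ((MvPolynomial.X 0 + MvPolynomial.X 1) ^ (2 * N) :
      MvPolynomial (Fin 2) ℝ) = ∑ p ∈ antidiagonal N, ∑ r ∈ antidiagonal p.2,
        ((2 : ℝ) ^ p.1 / (p.1.factorial * r.1.factorial * r.2.factorial)) •
          (MvPolynomial.X 0 ^ (p.1 + 2 * r.1) * MvPolynomial.X 1 ^ (p.1 + 2 * r.2)) := by
    set a : MvPolynomial (Fin 2) ℝ := MvPolynomial.X 0
    set b : MvPolynomial (Fin 2) ℝ := MvPolynomial.X 1
    have e1 : (a + b) ^ (2 * N) = (2 * a * b + (a ^ 2 + b ^ 2)) ^ N := by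
      rw [pow_mul]; ring_nf
    rw [e1, (Commute.all _ _).add_pow', smul_sum]
    refine sum_congr rfl fun p hp => ?_
    rw [(Commute.all (a ^ 2) (b ^ 2)).add_pow', mul_sum, smul_sum, smul_sum]
    refine sum_congr rfl fun r hr => ?_
    have hp' : p.1 + p.2 = N := mem_antidiagonal.1 hp
    have hr' : r.1 + r.2 = p.2 := mem_antidiagonal.1 hr
    have c1 : (N.choose p.1 : ℝ) = N.factorial / (p.1.factorial * p.2.factorial) := by
      rw [← hp', Nat.cast_add_choose]
    have c2 : (p.2.choose r.1 : ℝ) = p.2.factorial / (r.1.factorial * r.2.factorial) := by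
      rw [← hr', Nat.cast_add_choose]
    have f1 : (N.factorial : ℝ) ≠ 0 := by positivity
    have f2 : (p.1.factorial : ℝ) ≠ 0 := by positivity
    have f3 : (p.2.factorial : ℝ) ≠ 0 := by positivity
    have f4 : (r.1.factorial : ℝ) ≠ 0 := by positivity
    have f5 : (r.2.factorial : ℝ) ≠ 0 := by positivity
    have e2 : (2 * a * b) ^ p.1 * (p.2.choose r.1 • ((a ^ 2) ^ r.1 * (b ^ 2) ^ r.2)) =
        ((2 : ℝ) ^ p.1 * (p.2.choose r.1 : ℝ)) • (a ^ (p.1 + 2 * r.1) * b ^ (p.1 + 2 * r.2)) := by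
      rw [MvPolynomial.smul_eq_C_mul, map_mul, map_pow, nsmul_eq_mul]
      have : (MvPolynomial.C (2 : ℝ) : MvPolynomial (Fin 2) ℝ) = 2 := map_ofNat _ 2
      have h3 : (MvPolynomial.C (p.2.choose r.1 : ℝ) : MvPolynomial (Fin 2) ℝ) =
        (p.2.choose r.1 : ℕ) := map_natCast _ _
      rw [this, h3]
      ring
    rw [e2, ← Nat.cast_smul_eq_nsmul ℝ, smul_smul, smul_smul, c1, c2]
    congr 1
    field_simp
  rw [h0, iter_Phi, mul_one, ← map_smul, key, map_sum]
  refine sum_congr rfl fun p _ => ?_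
  rw [map_sum]
  refine sum_congr rfl fun r _ => ?_
  rw [map_smul, Phi_pow]

/-- the (truncated) heat operator of `D` at time `1` -/
noncomputable def E (M : ℕ) (x : A) : A := ∑ k ∈ range M, ((k.factorial : ℝ)⁻¹) • D^[2 * k] x

/-- its version with a time variable -/
noncomputable def eP (M : ℕ) (x : A) : A[X] :=
  ∑ k ∈ range M, Polynomial.monomial k (((k.factorial : ℝ)⁻¹) • D^[2 * k] x)

lemma eval_eP (M : ℕ) (x : A) : (eP D M x).eval 1 = E D M x := by
  simp [eP, E, eval_finsetSum]

variable {D}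

lemma iter_zero_of_le {x : A} {M k : ℕ} (h : D^[M] x = 0) (hk : M ≤ k) : D^[k] x = 0 := by
  obtain ⟨j, rfl⟩ := Nat.exists_eq_add_of_le hk
  rw [add_comm, Function.iterate_add_apply, h]
  exact Function.iterate_fixed (map_zero D) j

lemma coeff_eP {M : ℕ} {x : A} (h : ∀ k, M ≤ k → D^[2 * k] x = 0) (k : ℕ) :
    (eP D M x).coeff k = ((k.factorial : ℝ)⁻¹) • D^[2 * k] x := by
  simp only [eP, finsetSum_coeff, Polynomial.coeff_monomial]
  rw [sum_ite_eq' (range M) k]
  split_ifs with hk
  · rfl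
  · rw [h k (by simpa using hk), smul_zero]

lemma iter_mul_zero {g h : A} {M : ℕ} (hg : D^[M] g = 0) (hh : D^[M] h = 0) {k : ℕ}
    (hk : M ≤ k) : D^[2 * k] (g * h) = 0 := by
  have h1 := iter_mul D g h k
  have h2 : ((k.factorial : ℝ)⁻¹) • D^[2 * k] (g * h) = 0 := by
    rw [h1]
    refine sum_eq_zero fun p hp => sum_eq_zero fun r hr => ?_
    have hp' : p.1 + p.2 = k := mem_antidiagonal.1 hp
    have hr' : r.1 + r.2 = p.2 := mem_antidiagonal.1 hr
    rcases le_total M (p.1 + 2 * r.1) with h3 | h3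
    · rw [iter_zero_of_le hg h3, zero_mul, smul_zero]
    · rw [iter_zero_of_le hh (show M ≤ p.1 + 2 * r.2 by omega), mul_zero, smul_zero]
  have h3 : (k.factorial : ℝ)⁻¹ ≠ 0 := by positivity
  have := congrArg (fun z => (k.factorial : ℝ) • z) h2
  simpa [smul_smul, mul_inv_cancel₀ (show (k.factorial : ℝ) ≠ 0 by positivity)] using this

/-- **Product formula for the heat operator.** -/
theorem E_mul {g h : A} {M : ℕ} (hg : D^[M] g = 0) (hh : D^[M] h = 0) :
    E D M (g * h) = ∑ n ∈ range M, ((2 : ℝ) ^ n / n.factorial) •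
      (E D M (D^[n] g) * E D M (D^[n] h)) := by
  have key : eP D M (g * h) = ∑ n ∈ range M, ((2 : ℝ) ^ n / n.factorial) •
      (Polynomial.X ^ n * (eP D M (D^[n] g) * eP D M (D^[n] h))) := by
    ext N
    rw [coeff_eP (fun k hk => iter_mul_zero hg hh hk), iter_mul, finsetSum_coeff,
      Nat.sum_antidiagonal_eq_sum_range_succ_mk]
    have hz : ∀ (x : A), D^[M] x = 0 → ∀ n k, M ≤ k → D^[2 * k] (D^[n] x) = 0 := by
      intro x hx n k hk
      rw [← Function.iterate_add_apply]
      exact iter_zero_of_le hx (by omega)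
    have hL : ∀ n, M ≤ n → (∑ r ∈ antidiagonal (N - n),
        ((2 : ℝ) ^ n / (n.factorial * r.1.factorial * r.2.factorial)) •
          (D^[n + 2 * r.1] g * D^[n + 2 * r.2] h)) = 0 := by
      intro n hn
      refine sum_eq_zero fun r _ => ?_
      rw [iter_zero_of_le hg (show M ≤ n + 2 * r.1 by omega), zero_mul, smul_zero]
    have hR : ∀ n, N < n → ((((2 : ℝ) ^ n / n.factorial) •
      (Polynomial.X ^ n * (eP D M (D^[n] g) * eP D M (D^[n] h)))).coeff N) = 0 := by
      intro n hn
      rw [coeff_smul, coeff_X_pow_mul', if_neg (by omega), smul_zero]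
    have hLR : ∀ n, n ≤ N → (∑ r ∈ antidiagonal (N - n),
        ((2 : ℝ) ^ n / (n.factorial * r.1.factorial * r.2.factorial)) •
          (D^[n + 2 * r.1] g * D^[n + 2 * r.2] h)) = ((((2 : ℝ) ^ n / n.factorial) •
      (Polynomial.X ^ n * (eP D M (D^[n] g) * eP D M (D^[n] h)))).coeff N) := by
      intro n hn
      rw [coeff_smul, coeff_X_pow_mul', if_pos hn, coeff_mul, smul_sum]
      refine sum_congr rfl fun r _ => ?_
      rw [coeff_eP (hz g hg n), coeff_eP (hz h hh n), smul_mul_smul_comm, smul_smul,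
        ← Function.iterate_add_apply, ← Function.iterate_add_apply, add_comm (2 * r.1),
        add_comm (2 * r.2)]
      congr 1
      field_simp
    rw [← sum_subset (s₁ := range (N + 1) ∩ range M) inter_subset_left,
      ← sum_subset (s₁ := range (N + 1) ∩ range M) (s₂ := range M) inter_subset_right]
    · refine sum_congr rfl fun n hn => hLR n ?_
      have := mem_range.1 (mem_inter.1 hn).1
      omega
    · intro n hn hn'
      refine hR n ?_
      by_contra hc
      exact hn' (mem_inter.2 ⟨mem_range.2 (by omega), hn⟩)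
    · intro n hn hn'
      refine hL n ?_
      by_contra hc
      exact hn' (mem_inter.2 ⟨hn, mem_range.2 (by omega)⟩)
  rw [← eval_eP, key, eval_finsetSum]
  refine sum_congr rfl fun n _ => ?_
  simp [eval_eP]

end bilin

end Pool.Agent.Q107.HF
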