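import Pool.Agent.Q107.HF.Core

/-!
# Leading forms of nonnegative polynomials
-/

set_option autoImplicit false

namespace Pool.Agent.Q107.HF

open Finset MvPolynomial

lemma eval_sg (c : ℝ) (f : P2) (v : Fin 2 → ℝ) :
    eval v (sg c f) = eval (fun i => c * v i) f := by
  induction f using MvPolynomial.induction_on with
  | C a => simp [sg]
  | add p q hp hq => rw [map_add, map_add, map_add, hp, hq]
  | mul_X p j hp =>
    rw [map_mul, map_mul, map_mul, hp]
    simp [sg]

/-- the restriction of `f` to the line through `v` -/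
noncomputable def line (f : P2) (v : Fin 2 → ℝ) : Polynomial ℝ :=
  ∑ k ∈ range (f.totalDegree + 1), Polynomial.C (eval v (homogeneousComponent k f)) *
    Polynomial.X ^ k

lemma line_coeff (f : P2) (v : Fin 2 → ℝ) {k : ℕ} (hk : k ≤ f.totalDegree) :
    (line f v).coeff k = eval v (homogeneousComponent k f) := by
  unfold line
  rw [Polynomial.finsetSum_coeff]
  simp only [Polynomial.coeff_C_mul_X_pow]
  rw [sum_ite_eq, if_pos (mem_range.2 (by omega))]

lemma line_natDegree (f : P2) (v : Fin 2 → ℝ) : (line f v).natDegree ≤ f.totalDegree := by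
  unfold line
  refine Polynomial.natDegree_sum_le_of_forall_le _ _ fun k hk => ?_
  rw [mem_range] at hk
  exact (Polynomial.natDegree_C_mul_X_pow_le _ _).trans (by omega)

lemma line_eval (f : P2) (v : Fin 2 → ℝ) (c : ℝ) :
    (line f v).eval c = eval (fun i => c * v i) f := by
  unfold line
  rw [Polynomial.eval_finsetSum]
  simp only [Polynomial.eval_mul, Polynomial.eval_C, Polynomial.eval_pow, Polynomial.eval_X]
  conv_rhs => rw [← sum_homogeneousComponent f, map_sum]
  refine sum_congr rfl fun k _ => ?_
  rw [← eval_sg, sg_hom c (homogeneousComponent_isHomogeneous k f), map_mul, eval_C, mul_comm]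

lemma lead_of_nonneg {P : Polynomial ℝ} (h : ∀ x, 0 ≤ P.eval x) : 0 ≤ P.leadingCoeff := by
  obtain ⟨n, hn⟩ := even_degree h
  obtain ⟨m, g, hg, e⟩ := sosD_of_nonneg n P (by omega) h
  rw [Polynomial.leadingCoeff, hn, e, Polynomial.finsetSum_coeff]
  refine sum_nonneg fun i _ => ?_
  rw [Polynomial.coeff_mul_add_eq_of_natDegree_le (hg i) (hg i)]
  exact mul_self_nonneg _

variable {f : P2} (hf : ∀ v : Fin 2 → ℝ, 0 ≤ eval v f)

include hf

lemma line_nonneg (v : Fin 2 → ℝ) : ∀ c, 0 ≤ (line f v).eval c := fun c => by
  rw [line_eval]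
  exact hf _

lemma top_nonneg (v : Fin 2 → ℝ) : 0 ≤ eval v (homogeneousComponent f.totalDegree f) := by
  by_cases h0 : eval v (homogeneousComponent f.totalDegree f) = 0
  · exact h0.ge
  · rw [← line_coeff f v le_rfl] at h0 ⊢
    have h1 : (line f v).natDegree = f.totalDegree :=
      le_antisymm (line_natDegree f v) (Polynomial.le_natDegree_of_ne_zero h0)
    have := lead_of_nonneg (line_nonneg hf v)
    rwa [Polynomial.leadingCoeff, h1] at this

lemma odd_top (hodd : Odd f.totalDegree) (v : Fin 2 → ℝ) :
    eval v (homogeneousComponent f.totalDegree f) = 0 := by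
  by_contra h0
  rw [← line_coeff f v le_rfl] at h0
  have h1 : (line f v).natDegree = f.totalDegree :=
    le_antisymm (line_natDegree f v) (Polynomial.le_natDegree_of_ne_zero h0)
  have := even_degree (line_nonneg hf v)
  rw [h1] at this
  exact (Nat.not_even_iff_odd.2 hodd) this

lemma next_top (heven : Even f.totalDegree) (hpos : f.totalDegree ≠ 0) (v : Fin 2 → ℝ)
    (h : eval v (homogeneousComponent f.totalDegree f) = 0) :
    eval v (homogeneousComponent (f.totalDegree - 1) f) = 0 := by
  by_contra h0
  rw [← line_coeff f v (Nat.sub_le _ _)] at h0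
  rw [← line_coeff f v le_rfl] at h
  have h1 : (line f v).natDegree ≠ f.totalDegree := by
    intro h1
    by_cases h2 : line f v = 0
    · rw [h2] at h0
      simp at h0
    · exact (Polynomial.leadingCoeff_ne_zero.2 h2) (by rw [Polynomial.leadingCoeff, h1, h])
  have h3 : (line f v).natDegree = f.totalDegree - 1 := by
    have h4 := Polynomial.le_natDegree_of_ne_zero h0
    have h5 := line_natDegree f v
    omega
  have := even_degree (line_nonneg hf v)
  rw [h3] at this
  obtain ⟨a, ha⟩ := heven
  obtain ⟨b, hb⟩ := this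
  omega

end Pool.Agent.Q107.HF
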