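import Pool.Agent.Q107.HF.Deriv

/-!
# The heat operator on bivariate polynomials
-/

set_option autoImplicit false

namespace Pool.Agent.Q107.HF

open Finset MvPolynomial

/-- bivariate real polynomials -/
abbrev P2 : Type := MvPolynomial (Fin 2) ℝ

/-- Laplacian -/
noncomputable def lap (f : P2) : P2 := ∑ i, pderiv i (pderiv i f)

/-- two-variable heat operator at time one, truncated at `M` -/
noncomputable def H (M : ℕ) (f : P2) : P2 := E (pderiv 0) M (E (pderiv 1) M f)

lemma lap_eq (f : P2) : lap f = pderiv 0 (pderiv 0 f) + pderiv 1 (pderiv 1 f) := by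
  simp [lap, Fin.sum_univ_two]

lemma pcomm (i j : Fin 2) (f : P2) : pderiv i (pderiv j f) = pderiv j (pderiv i f) := by
  have h : ⁅(pderiv i : Derivation ℝ P2 P2), (pderiv j : Derivation ℝ P2 P2)⁆ = 0 := by
    apply MvPolynomial.derivation_ext
    intro k
    rw [Derivation.commutator_apply]
    simp only [pderiv_X, Pi.single_apply, Derivation.zero_apply]
    split_ifs <;> simp
  have := congrArg (fun D : Derivation ℝ P2 P2 => D f) h
  simp only [Derivation.commutator_apply, Derivation.zero_apply] at this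
  exact sub_eq_zero.1 this

lemma pcomm_iter (i j : Fin 2) (a b : ℕ) (f : P2) :
    (pderiv i)^[a] ((pderiv j)^[b] f) = (pderiv j)^[b] ((pderiv i)^[a] f) := by
  have h : Function.Commute (pderiv i : P2 → P2) (pderiv j : P2 → P2) := fun x => pcomm i j x
  exact (h.iterate_iterate a b) f

lemma td_le {f : P2} {n : ℕ} : f.totalDegree ≤ n ↔ ∀ m, coeff m f ≠ 0 → m 0 + m 1 ≤ n := by
  rw [totalDegree, Finset.sup_le_iff]
  refine forall_congr' fun m => ?_
  rw [mem_support_iff, Finsupp.sum_fintype _ _ (fun _ => rfl), Fin.sum_univ_two]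

lemma totalDegree_pderiv_le (i : Fin 2) {f : P2} {n : ℕ} (h : f.totalDegree ≤ n) :
    (pderiv i f).totalDegree ≤ n - 1 := by
  rw [td_le] at h ⊢
  intro m hm
  rw [coeff_pderiv] at hm
  have h1 : coeff (m + Finsupp.single i 1) f ≠ 0 := fun h0 => hm (by rw [h0]; simp)
  have h2 := h _ h1
  simp only [Finsupp.add_apply, Finsupp.single_apply] at h2
  fin_cases i <;> simp at h2 <;> omega

lemma pderiv_zero_of (i : Fin 2) {f : P2} (h : f.totalDegree ≤ 0) : pderiv i f = 0 := by
  rw [Nat.le_zero, totalDegree_eq_zero_iff_eq_C] at h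
  rw [h, pderiv_C]

lemma iter_pderiv_le (i : Fin 2) {f : P2} {n : ℕ} (h : f.totalDegree ≤ n) (k : ℕ) :
    ((pderiv i)^[k] f).totalDegree ≤ n - k := by
  induction k with
  | zero => simpa using h
  | succ k ih =>
    rw [Function.iterate_succ_apply']
    exact (totalDegree_pderiv_le i ih).trans (by omega)

lemma iter_pderiv_zero (i : Fin 2) {f : P2} {n : ℕ} (h : f.totalDegree < n) :
    (pderiv i)^[n] f = 0 := by
  obtain ⟨k, rfl⟩ : ∃ k, n = k + 1 := ⟨n - 1, by omega⟩
  rw [Function.iterate_succ_apply']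
  apply pderiv_zero_of
  have := iter_pderiv_le i (le_refl f.totalDegree) k
  omega

lemma iter2_zero (i j : Fin 2) {f : P2} {a b : ℕ} (h : f.totalDegree < a + b) :
    (pderiv i)^[a] ((pderiv j)^[b] f) = 0 := by
  by_cases hb : f.totalDegree < b
  · rw [iter_pderiv_zero j hb]
    exact Function.iterate_fixed (map_zero _) a
  · apply iter_pderiv_zero
    have := iter_pderiv_le j (le_refl f.totalDegree) b
    omega

section E

variable {A : Type*} [CommRing A] [Algebra ℝ A] (D : Derivation ℝ A A)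

lemma iter_add (k : ℕ) (x y : A) : D^[k] (x + y) = D^[k] x + D^[k] y := by
  induction k generalizing x y with
  | zero => rfl
  | succ k ih => rw [Function.iterate_succ_apply, map_add, ih]; rfl

lemma iter_smul (k : ℕ) (c : ℝ) (x : A) : D^[k] (c • x) = c • D^[k] x := by
  induction k generalizing x with
  | zero => rfl
  | succ k ih => rw [Function.iterate_succ_apply, Derivation.map_smul, ih]; rfl

lemma iter_sum {ι : Type*} (s : Finset ι) (k : ℕ) (x : ι → A) :
    D^[k] (∑ i ∈ s, x i) = ∑ i ∈ s, D^[k] (x i) := by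
  induction k generalizing x with
  | zero => rfl
  | succ k ih => rw [Function.iterate_succ_apply, map_sum, ih]; rfl

lemma E_add (M : ℕ) (x y : A) : E D M (x + y) = E D M x + E D M y := by
  simp only [E, iter_add, smul_add, sum_add_distrib]

lemma E_smul (M : ℕ) (c : ℝ) (x : A) : E D M (c • x) = c • E D M x := by
  simp only [E, iter_smul, smul_sum, smul_comm c]

lemma E_sum {ι : Type*} (s : Finset ι) (M : ℕ) (x : ι → A) :
    E D M (∑ i ∈ s, x i) = ∑ i ∈ s, E D M (x i) := by
  simp only [E, iter_sum, smul_sum]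
  rw [sum_comm]

end E

lemma H_add (M : ℕ) (x y : P2) : H M (x + y) = H M x + H M y := by
  simp only [H, E_add]

lemma H_smul (M : ℕ) (c : ℝ) (x : P2) : H M (c • x) = c • H M x := by
  simp only [H, E_smul]

lemma H_sum {ι : Type*} (s : Finset ι) (M : ℕ) (x : ι → P2) :
    H M (∑ i ∈ s, x i) = ∑ i ∈ s, H M (x i) := by
  simp only [H, E_sum]

lemma E_pderiv_comm (i j : Fin 2) (M k : ℕ) (x : P2) :
    (pderiv i)^[k] (E (pderiv j) M x) = E (pderiv j) M ((pderiv i)^[k] x) := by
  simp only [E, iter_sum, iter_smul]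
  exact sum_congr rfl fun n _ => by rw [pcomm_iter]

/-- the pieces of the heat operator on a square -/
noncomputable def G (M : ℕ) (m n : ℕ) (g : P2) : P2 := H M ((pderiv 0)^[m] ((pderiv 1)^[n] g))

/-- **The heat operator of a square.** -/
theorem H_sq {g : P2} {M : ℕ} (hg : g.totalDegree < M) :
    H M (g * g) = ∑ n ∈ range M, ∑ m ∈ range M,
      (((2 : ℝ) ^ n / n.factorial) * ((2 : ℝ) ^ m / m.factorial)) • (G M m n g * G M m n g) := by
  unfold H
  rw [E_mul (iter_pderiv_zero 1 hg) (iter_pderiv_zero 1 hg), E_sum]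
  refine sum_congr rfl fun n _ => ?_
  have hz : (pderiv 0)^[M] (E (pderiv 1) M ((pderiv 1)^[n] g)) = 0 := by
    rw [E_pderiv_comm]
    unfold E
    refine sum_eq_zero fun k _ => ?_
    rw [pcomm_iter, iter_pderiv_zero 0, smul_zero]
    · exact lt_of_le_of_lt ((iter_pderiv_le 1 ((iter_pderiv_le 1 le_rfl n)) (2 * k)).trans
        (by omega)) hg
  rw [E_smul, E_mul hz hz, smul_sum]
  refine sum_congr rfl fun m _ => ?_
  rw [smul_smul, E_pderiv_comm]
  rfl

/-- the reindexing of double sums -/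
lemma sum_range_antidiag {B : Type*} [AddCommMonoid B] (T : ℕ → ℕ → B) (M : ℕ)
    (h : ∀ i j, M ≤ i + j → T i j = 0) :
    ∑ k ∈ range M, ∑ p ∈ antidiagonal k, T p.1 p.2 = ∑ i ∈ range M, ∑ j ∈ range M, T i j := by
  rw [← sum_product', sum_sigma' (range M) (fun k => antidiagonal k)
    (fun k p => T p.1 p.2)]
  have h1 : ∑ x ∈ (range M).sigma (fun k => antidiagonal k), T x.2.1 x.2.2 =
      ∑ p ∈ (range M ×ˢ range M).filter (fun p => p.1 + p.2 < M), T p.1 p.2 := by
    refine sum_bij' (fun x _ => x.2) (fun p _ => ⟨p.1 + p.2, p⟩) ?_ ?_ ?_ ?_ ?_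
    · rintro ⟨k, p⟩ hx
      simp only [mem_sigma, mem_range, HasAntidiagonal.mem_antidiagonal] at hx
      simp only [mem_filter, mem_product, mem_range]
      omega
    · rintro p hp
      simp only [mem_filter, mem_product, mem_range] at hp
      simp only [mem_sigma, mem_range, HasAntidiagonal.mem_antidiagonal, and_true]
      omega
    · rintro ⟨k, p⟩ hx
      simp only [mem_sigma, mem_range, HasAntidiagonal.mem_antidiagonal] at hx
      obtain ⟨_, rfl⟩ := hx
      rfl
    · rintro p _
      rfl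
    · rintro ⟨k, p⟩ _
      rfl
  rw [h1]
  refine sum_subset (filter_subset _ _) fun p hp hp' => ?_
  refine h _ _ ?_
  by_contra hc
  exact hp' (mem_filter.2 ⟨hp, by omega⟩)

/-- powers of the Laplacian -/
lemma lap_iter (f : P2) (k : ℕ) : lap^[k] f = ∑ p ∈ antidiagonal k,
    (k.choose p.1 : ℝ) • (pderiv 0)^[2 * p.1] ((pderiv 1)^[2 * p.2] f) := by
  set a : Module.End ℝ P2 := (pderiv 0 : Derivation ℝ P2 P2).toLinearMap with ha
  set b : Module.End ℝ P2 := (pderiv 1 : Derivation ℝ P2 P2).toLinearMap with hb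
  have hab : Commute a b := by
    refine LinearMap.ext fun x => ?_
    exact pcomm 0 1 x
  have hl : ∀ x : P2, lap x = (a ^ 2 + b ^ 2) x := by
    intro x
    rw [lap_eq]
    simp [pow_two, ha, hb]
  have hi : ∀ k : ℕ, ∀ x : P2, lap^[k] x = ((a ^ 2 + b ^ 2) ^ k) x := by
    intro k
    induction k with
    | zero => intro x; rfl
    | succ k ih => intro x; rw [Function.iterate_succ_apply, ih, hl, pow_succ]; rfl
  rw [hi, ((hab.pow_pow 2 2)).add_pow', LinearMap.sum_apply]
  refine sum_congr rfl fun p _ => ?_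
  rw [LinearMap.smul_apply, ← Nat.cast_smul_eq_nsmul ℝ, ← pow_mul, ← pow_mul]
  congr 1
  rw [Module.End.mul_apply, Module.End.pow_apply, Module.End.pow_apply]
  rfl

/-- the heat operator through the Laplacian -/
theorem H_lap {f : P2} {M : ℕ} (h : f.totalDegree < 2 * M) :
    ∑ k ∈ range M, ((k.factorial : ℝ)⁻¹) • lap^[k] f = H M f := by
  have h1 : ∀ k, ((k.factorial : ℝ)⁻¹) • lap^[k] f = ∑ p ∈ antidiagonal k,
      ((p.1.factorial : ℝ)⁻¹ * (p.2.factorial : ℝ)⁻¹) •
        (pderiv 0)^[2 * p.1] ((pderiv 1)^[2 * p.2] f) := by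
    intro k
    rw [lap_iter, smul_sum]
    refine sum_congr rfl fun p hp => ?_
    have hp' : p.1 + p.2 = k := HasAntidiagonal.mem_antidiagonal.1 hp
    rw [smul_smul]
    congr 1
    rw [← hp', Nat.cast_add_choose]
    have : ((p.1 + p.2).factorial : ℝ) ≠ 0 := by positivity
    field_simp
  simp only [h1]
  rw [sum_range_antidiag (fun i j => ((i.factorial : ℝ)⁻¹ * (j.factorial : ℝ)⁻¹) •
        (pderiv 0)^[2 * i] ((pderiv 1)^[2 * j] f))]
  · unfold H E
    refine sum_congr rfl fun i _ => ?_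
    rw [iter_sum, smul_sum]
    refine sum_congr rfl fun j _ => ?_
    rw [iter_smul, smul_smul]
  · intro i j hij
    rw [iter2_zero 0 1 (by omega), smul_zero]

end Pool.Agent.Q107.HF
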