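import Pool.Agent.Q107.HF.Dir

/-!
# Eventually sums of squares
-/

set_option autoImplicit false

namespace Pool.Agent.Q107.HF

open Finset MvPolynomial

lemma eval_hz {F : Polynomial ℝ} {n : ℕ} (hF : F.natDegree ≤ n) (r : ℝ) :
    eval ![r, 1] (F.homogenize n) = F.eval r := by
  rw [Polynomial.eval_homogenize hF _ (by simp)]
  simp

lemma eval_hz_inf (F : Polynomial ℝ) (n : ℕ) : eval ![1, 0] (F.homogenize n) = F.coeff n := by
  rw [Polynomial.homogenize, map_sum, sum_eq_single (n, 0)]
  · rw [eval_monomial, Finsupp.prod_fintype _ _ (fun _ => pow_zero _), Fin.prod_univ_two]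
    simp
  · intro b hb hne
    rw [HasAntidiagonal.mem_antidiagonal] at hb
    rw [eval_monomial, Finsupp.prod_fintype _ _ (fun _ => pow_zero _), Fin.prod_univ_two]
    have h2 : b.2 ≠ 0 := by
      intro h0
      exact hne (Prod.ext (by simp only; omega) h0)
    simp [h2]
  · intro h
    exact absurd (HasAntidiagonal.mem_antidiagonal.2 (add_zero n)) h

lemma hz_pow4 (r : ℝ) : ((Polynomial.X - Polynomial.C r) ^ 4 : Polynomial ℝ).homogenize 4 =
    (C 1 * X 0 + C (-r) * X 1) ^ 4 := by
  have h1 : (Polynomial.X - Polynomial.C r : Polynomial ℝ).natDegree ≤ 1 :=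
    (Polynomial.natDegree_X_sub_C r).le
  have h2 : ((Polynomial.X - Polynomial.C r) * (Polynomial.X - Polynomial.C r) :
      Polynomial ℝ).natDegree ≤ 1 + 1 := Polynomial.natDegree_mul_le_of_le h1 h1
  have e : ((Polynomial.X - Polynomial.C r) ^ 4 : Polynomial ℝ) =
      ((Polynomial.X - Polynomial.C r) * (Polynomial.X - Polynomial.C r)) *
      ((Polynomial.X - Polynomial.C r) * (Polynomial.X - Polynomial.C r)) := by ring
  have e4 : (4 : ℕ) = (1 + 1) + (1 + 1) := rfl
  rw [e, e4, Polynomial.homogenize_mul _ _ h2 h2, Polynomial.homogenize_mul _ _ h1 h1,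
    Polynomial.homogenize_sub, Polynomial.homogenize_X one_ne_zero, Polynomial.homogenize_C]
  simp only [map_one, map_neg]
  ring

lemma hc_ne_zero {f : P2} (h : f.totalDegree ≠ 0) :
    homogeneousComponent f.totalDegree f ≠ 0 := by
  intro h0
  have h1 := low_hz (le_refl f.totalDegree)
  rw [h0, sub_zero] at h1
  obtain ⟨n, hn⟩ : ∃ n, f.totalDegree = n + 1 := ⟨f.totalDegree - 1, by omega⟩
  rw [hn, low_succ_iff] at h1
  omega

/-- the algebraic data attached to a nonnegative leading form -/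
theorem structure_thm {f : P2} (hf : ∀ v : Fin 2 → ℝ, 0 ≤ eval v f) {d : ℕ} (hd : 1 ≤ d)
    (hN : f.totalDegree = 2 * d)
    (h4 : ∀ a b : ℝ, (a ≠ 0 ∨ b ≠ 0) →
      ¬ (C a * X 0 + C b * X 1) ^ 4 ∣ homogeneousComponent f.totalDegree f) :
    ∃ (S : Finset ℝ) (p e : ℕ) (q U : Polynomial ℝ), p + e = d ∧ (S.card = p ∨ S.card + 1 = p) ∧
      (∀ x, 0 < q.eval x) ∧ q.natDegree = 2 * e ∧ U.natDegree ≤ e + (d - 1) ∧
      homogeneousComponent (2 * d) f =
        (∏ r ∈ S, (Polynomial.X - Polynomial.C r)).homogenize p *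
        (∏ r ∈ S, (Polynomial.X - Polynomial.C r)).homogenize p * q.homogenize (2 * e) ∧
      homogeneousComponent (2 * d - 1) f =
        (∏ r ∈ S, (Polynomial.X - Polynomial.C r)).homogenize p *
          U.homogenize (e + (d - 1)) := by
  have hpos : f.totalDegree ≠ 0 := by omega
  have heven : Even f.totalDegree := ⟨d, by omega⟩
  have hne := hc_ne_zero hpos
  have htop := top_nonneg hf
  have hnext := next_top hf heven hpos
  rw [hN] at h4 hne htop hnext
  obtain ⟨F, hF, hFx⟩ := exists_hz (homogeneousComponent_isHomogeneous (2 * d) f)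
  obtain ⟨F', hF', hFx'⟩ := exists_hz (homogeneousComponent_isHomogeneous (2 * d - 1) f)
  rw [← hFx] at h4 hne htop hnext
  rw [← hFx'] at hnext
  have hF0 : F ≠ 0 := by
    rintro rfl
    exact hne (Polynomial.homogenize_zero _)
  have hFnn : ∀ x, 0 ≤ F.eval x := fun x => by
    rw [← eval_hz hF]
    exact htop _
  have hF4 : ∀ r : ℝ, ¬ (Polynomial.X - Polynomial.C r) ^ 4 ∣ F := by
    rintro r ⟨R, hR⟩
    have hR0 : R ≠ 0 := by
      rintro rfl
      exact hF0 (by rw [hR, mul_zero])
    have h1 : ((Polynomial.X - Polynomial.C r) ^ 4 : Polynomial ℝ).natDegree = 4 := by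
      rw [Polynomial.natDegree_pow, Polynomial.natDegree_X_sub_C]
    have h2 : F.natDegree = 4 + R.natDegree := by
      rw [hR, Polynomial.natDegree_mul (pow_ne_zero _ (Polynomial.X_sub_C_ne_zero r)) hR0, h1]
    refine h4 1 (-r) (Or.inl one_ne_zero) ⟨R.homogenize (2 * d - 4), ?_⟩
    rw [← hz_pow4, ← Polynomial.homogenize_mul _ _ h1.le (by omega), ← hR]
    congr 1
    omega
  obtain ⟨S, q, hS, hq⟩ := decomp _ F le_rfl hF0 hFnn hF4
  obtain ⟨e, he⟩ := even_degree fun x => (hq x).le
  have hq0 : q ≠ 0 := by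
    rintro rfl
    simpa using hq 0
  obtain ⟨hRR, hPd⟩ := RR.prod S
  set P : Polynomial ℝ := ∏ r ∈ S, (Polynomial.X - Polynomial.C r) with hP
  have hP0 : P ≠ 0 := hRR.1
  have hdeg : F.natDegree = 2 * S.card + 2 * e := by
    rw [hS, Polynomial.natDegree_mul (pow_ne_zero _ hP0) hq0, Polynomial.natDegree_pow, hPd, he]
    omega
  have hlow : d ≤ S.card + e + 1 := by
    by_contra hlt
    push Not at hlt
    refine h4 0 1 (Or.inr one_ne_zero) ⟨F.homogenize (2 * d - 4), ?_⟩
    have h1 : (1 : Polynomial ℝ).natDegree ≤ 4 := by simp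
    have h2 : (1 : Polynomial ℝ).homogenize 4 = (C 0 * X 0 + C 1 * X 1) ^ 4 := by
      rw [Polynomial.homogenize_one]
      simp
    rw [← h2, ← Polynomial.homogenize_mul _ _ h1 (by omega), one_mul]
    congr 1
    omega
  -- the next form
  have hroot : ∀ r ∈ S, F'.eval r = 0 := by
    intro r hr
    rw [← eval_hz hF']
    apply hnext
    rw [eval_hz hF, hS, Polynomial.eval_mul, Polynomial.eval_pow, hP, Polynomial.eval_prod,
      prod_eq_zero hr (by simp)]
    simp
  have hdvd : P ∣ F' := by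
    rw [hP]
    refine Finset.prod_dvd_of_coprime ?_ ?_
    · intro a _ b _ hab
      exact Polynomial.pairwise_coprime_X_sub_C (s := fun x : ℝ => x) Function.injective_id hab
    · intro r hr
      exact Polynomial.dvd_iff_isRoot.2 (hroot r hr)
  obtain ⟨U, hU⟩ := hdvd
  have hF'd : F.natDegree < 2 * d → F'.natDegree ≤ 2 * d - 2 := by
    intro hlt
    have h1 : F.coeff (2 * d) = 0 := Polynomial.coeff_eq_zero_of_natDegree_lt hlt
    have h2 : F'.coeff (2 * d - 1) = 0 := by
      rw [← eval_hz_inf]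
      apply hnext
      rw [eval_hz_inf, h1]
    rw [Polynomial.natDegree_le_iff_coeff_eq_zero]
    intro i hi
    by_cases hi2 : i = 2 * d - 1
    · rw [hi2, h2]
    · exact Polynomial.coeff_eq_zero_of_natDegree_lt (by omega)
  have hcase : S.card = d - e ∨ S.card + 1 = d - e := by omega
  have hed : d - e + e = d := by omega
  have hUd : U.natDegree ≤ e + (d - 1) := by
    by_cases hU0 : U = 0
    · simp [hU0]
    have h1 : F'.natDegree = S.card + U.natDegree := by
      rw [hU, Polynomial.natDegree_mul hP0 hU0, hPd]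
    rcases hcase with h | h
    · omega
    · have := hF'd (by omega)
      omega
  refine ⟨S, d - e, e, q, U, hed, hcase, hq, by omega, hUd, ?_, ?_⟩
  · rw [← hFx, ← hP]
    have hPle : P.natDegree ≤ d - e := by omega
    rw [← Polynomial.homogenize_mul _ _ hPle hPle, ← Polynomial.homogenize_mul _ _
      (Polynomial.natDegree_mul_le_of_le hPle hPle) (by omega), ← sq, ← hS]
    congr 1
    omega
  · rw [← hFx', ← hP, ← Polynomial.homogenize_mul _ _ (by omega) hUd, ← hU]
    congr 1
    omega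

lemma split_U {U : Polynomial ℝ} {e k : ℕ} (hk : e ≤ k + 1) (hU : U.natDegree ≤ e + k) :
    ∃ u v : Polynomial ℝ, u.natDegree ≤ k ∧ v.natDegree ≤ k ∧
      U.homogenize (e + k) = X 1 ^ e * u.homogenize k + X 0 ^ e * v.homogenize k := by
  have hmon : (Polynomial.X ^ e : Polynomial ℝ).Monic := Polynomial.monic_X_pow e
  have h1 := Polynomial.modByMonic_add_div U (Polynomial.X ^ e : Polynomial ℝ)
  have hu : (U %ₘ (Polynomial.X ^ e)).natDegree ≤ k := by
    rcases Nat.eq_zero_or_pos e with h0 | h0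
    · rw [h0, pow_zero, Polynomial.modByMonic_one]
      simp
    · have h2 : (Polynomial.X ^ e : Polynomial ℝ) ≠ 1 := by
        intro h3
        have := congrArg Polynomial.natDegree h3
        rw [Polynomial.natDegree_X_pow, Polynomial.natDegree_one] at this
        omega
      have := Polynomial.natDegree_modByMonic_lt U hmon h2
      rw [Polynomial.natDegree_X_pow] at this
      omega
  have hv : (U /ₘ (Polynomial.X ^ e)).natDegree ≤ k := by
    rw [Polynomial.natDegree_divByMonic U hmon, Polynomial.natDegree_X_pow]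
    omega
  refine ⟨U %ₘ (Polynomial.X ^ e), U /ₘ (Polynomial.X ^ e), hu, hv, ?_⟩
  have h3 : (1 : Polynomial ℝ).natDegree ≤ e := by simp
  have h4 : (Polynomial.X ^ e : Polynomial ℝ).natDegree ≤ e := by simp
  have e1 : (X 1 : P2) ^ e = (1 : Polynomial ℝ).homogenize e := by
    rw [Polynomial.homogenize_one]
  have e2 : (X 0 : P2) ^ e = (Polynomial.X ^ e : Polynomial ℝ).homogenize e := by
    rw [Polynomial.homogenize_X_pow le_rfl, Nat.sub_self, pow_zero, mul_one]
  rw [e1, e2, ← Polynomial.homogenize_mul _ _ h3 hu, ← Polynomial.homogenize_mul _ _ h4 hv,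
    ← Polynomial.homogenize_add, one_mul, h1]

/-- **Main theorem.** -/
theorem main_pos {f : P2} (hf : ∀ v : Fin 2 → ℝ, 0 ≤ eval v f) {d : ℕ} (hd : 1 ≤ d)
    (hN : f.totalDegree = 2 * d)
    (h4 : ∀ a b : ℝ, (a ≠ 0 ∨ b ≠ 0) →
      ¬ (C a * X 0 + C b * X 1) ^ 4 ∣ homogeneousComponent f.totalDegree f) :
    ∃ T > 0, ∀ t : ℝ, T ≤ t → IsSumSq (heat f t) := by
  obtain ⟨S, p, e, q, U, hpe, hcase, hq, hqd, hUd, hF0, hF1⟩ := structure_thm hf hd hN h4
  obtain ⟨-, hPd⟩ := RR.prod S
  set P : Polynomial ℝ := ∏ r ∈ S, (Polynomial.X - Polynomial.C r) with hP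
  have hPle : P.natDegree ≤ p := by omega
  -- extra real roots
  obtain ⟨S1, hS1, hS1c⟩ := Infinite.exists_superset_card_eq S (S.card + e) (by omega)
  obtain ⟨-, hhd⟩ := RR.prod (S1 \ S)
  obtain ⟨hRR, hQd⟩ := RR.prod S1
  set h : Polynomial ℝ := ∏ r ∈ S1 \ S, (Polynomial.X - Polynomial.C r) with hh
  have hcard : (S1 \ S).card = e := by
    rw [card_sdiff_of_subset hS1, hS1c]
    omega
  have hprod : ∏ r ∈ S1, (Polynomial.X - Polynomial.C r) = P * h := by
    rw [hP, hh, mul_comm, prod_sdiff hS1]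
  set G : Polynomial ℝ := h * h + 1 * 1 + Polynomial.X ^ e * Polynomial.X ^ e with hG
  have hhle : h.natDegree ≤ e := by omega
  have h1le : (1 : Polynomial ℝ).natDegree ≤ e := by simp
  have hXle : (Polynomial.X ^ e : Polynomial ℝ).natDegree ≤ e := by simp
  have hGd : G.natDegree ≤ e + e := by
    rw [hG]
    refine Polynomial.natDegree_add_le_of_degree_le (Polynomial.natDegree_add_le_of_degree_le
      (Polynomial.natDegree_mul_le_of_le hhle hhle) (Polynomial.natDegree_mul_le_of_le h1le h1le))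
      (Polynomial.natDegree_mul_le_of_le hXle hXle)
  obtain ⟨ε, hε, hdom⟩ := dominate (G := G) hq (by omega)
  have hq'd : (q - Polynomial.C ε * G).natDegree ≤ 2 * e := by
    refine (Polynomial.natDegree_sub_le _ _).trans (max_le hqd.le ?_)
    exact (Polynomial.natDegree_C_mul_le _ _).trans (by omega)
  obtain ⟨m, g, hg, hq'⟩ := sosD_of_nonneg e _ hq'd (fun x => by
    rw [Polynomial.eval_sub, Polynomial.eval_mul, Polynomial.eval_C]
    linarith [hdom x])
  obtain ⟨u, v, hu, hv, hUuv⟩ := split_U (k := d - 1) (by omega) hUd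
  -- the gain
  obtain ⟨c0, hc0, hgain⟩ := gain (M := 2 * d + 1) hd (by omega) hRR (by omega)
  rw [hprod, ← hpe, Polynomial.homogenize_mul _ _ hPle hhle, hpe] at hgain
  set Ph : P2 := P.homogenize p with hPh
  have hPhd : Ph.totalDegree ≤ p := td_hz _ _
  set σ : ℝ := Real.sqrt ε with hσ
  have hσ0 : 0 < σ := Real.sqrt_pos.2 hε
  have hσσ : (C σ * C σ : P2) = C ε := by rw [← map_mul, Real.mul_self_sqrt hε.le]
  have hX : ∀ i : Fin 2, ((X i : P2) ^ e).totalDegree ≤ e := fun i => by
    rw [totalDegree_X_pow]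
  have hqh : q.homogenize (2 * e) = C ε * (h.homogenize e * h.homogenize e + X 1 ^ e * X 1 ^ e +
      X 0 ^ e * X 0 ^ e) + ∑ i, (g i).homogenize e * (g i).homogenize e := by
    have e0 : q = Polynomial.C ε * G + ∑ i, g i * g i := by
      rw [← hq']
      ring
    have e1 : (X 1 : P2) ^ e = (1 : Polynomial ℝ).homogenize e := by
      rw [Polynomial.homogenize_one]
    have e2 : (X 0 : P2) ^ e = (Polynomial.X ^ e : Polynomial ℝ).homogenize e := by
      rw [Polynomial.homogenize_X_pow le_rfl, Nat.sub_self, pow_zero, mul_one]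
    have e3 : ∀ i, (g i).homogenize e * (g i).homogenize e = (g i * g i).homogenize (2 * e) := by
      intro i
      rw [two_mul, Polynomial.homogenize_mul _ _ (hg i) (hg i)]
    rw [e0, Polynomial.homogenize_add, Polynomial.homogenize_C_mul,
      Polynomial.homogenize_finsetSum, sum_congr rfl fun i _ => e3 i, hG,
      Polynomial.homogenize_add, Polynomial.homogenize_add, two_mul,
      Polynomial.homogenize_mul _ _ hhle hhle, Polynomial.homogenize_mul _ _ h1le h1le,
      Polynomial.homogenize_mul _ _ hXle hXle, e1, e2]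
  refine reduce (N := 2 * d) (M := 2 * d + 1) hN.le (by omega) ?_
  refine core hd (by omega) (ε := ε) (c0 := c0) hε hc0 (Q := Ph * h.homogenize e)
    (a := C σ * (Ph * X 1 ^ e)) (b := C σ * (Ph * X 0 ^ e))
    (u0 := C (2 * σ)⁻¹ * u.homogenize (d - 1)) (u1 := C (2 * σ)⁻¹ * v.homogenize (d - 1))
    ?_ ?_ ?_ ?_ (m := m) (fun i => Ph * (g i).homogenize e) ?_ hgain ?_ ?_
  · have h1 := td_mul_le (a := 0) (f := C σ) (totalDegree_C _).le (td_mul_le hPhd (hX 1))
    omega
  · have h1 := td_mul_le (a := 0) (f := C σ) (totalDegree_C _).le (td_mul_le hPhd (hX 0))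
    omega
  · have h1 := td_mul_le (a := 0) (f := C (2 * σ)⁻¹) (totalDegree_C _).le (td_hz u (d - 1))
    omega
  · have h1 := td_mul_le (a := 0) (f := C (2 * σ)⁻¹) (totalDegree_C _).le (td_hz v (d - 1))
    omega
  · intro i
    have h1 := td_mul_le hPhd (td_hz (g i) e)
    omega
  · rw [hF0, hqh]
    have e5 : ∑ i, Ph * (g i).homogenize e * (Ph * (g i).homogenize e) =
        Ph * Ph * ∑ i, (g i).homogenize e * (g i).homogenize e := by
      rw [mul_sum]
      refine sum_congr rfl fun i _ => ?_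
      ring
    rw [e5]
    linear_combination (-(Ph * Ph * X 1 ^ e * X 1 ^ e) - (Ph * Ph * X 0 ^ e * X 0 ^ e)) * hσσ
  · rw [hF1, hUuv]
    have e6 : (2 * (C σ * C (2 * σ)⁻¹) : P2) = 1 := by
      have : (2 : P2) = C 2 := (map_ofNat C 2).symm
      rw [this, ← map_mul, ← map_mul, ← map_one C]
      congr 1
      field_simp
    linear_combination (-(Ph * X 1 ^ e * u.homogenize (d - 1)) -
      (Ph * X 0 ^ e * v.homogenize (d - 1))) * e6

theorem main_thm {f : P2} (hf : ∀ v : Fin 2 → ℝ, 0 ≤ eval v f)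
    (h4 : ∀ a b : ℝ, (a ≠ 0 ∨ b ≠ 0) →
      ¬ (C a * X 0 + C b * X 1) ^ 4 ∣ homogeneousComponent f.totalDegree f) :
    ∃ T > 0, ∀ t : ℝ, T ≤ t → IsSumSq (heat f t) := by
  by_cases h0 : f.totalDegree = 0
  · refine ⟨1, one_pos, fun t _ => ?_⟩
    have h1 := totalDegree_eq_zero_iff_eq_C.1 h0
    have h2 : heat f t = f := by
      unfold heat
      rw [h0]
      simp
    have h3 := hf 0
    rw [h1, eval_C] at h3
    rw [h2, h1]
    exact sumSq_C h3
  · rcases Nat.even_or_odd f.totalDegree with he | ho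
    · obtain ⟨d, hd⟩ := he
      exact main_pos hf (d := d) (by omega) (by omega) h4
    · exfalso
      apply hc_ne_zero h0
      exact MvPolynomial.funext fun v => by rw [odd_top hf ho v, map_zero]

end Pool.Agent.Q107.HF
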