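import Mathlib
import Pool.Agent.Q107.HF.Main

/-!
# Heat flow of bivariate nonnegative polynomials

Partial result on Q1 of `MP_0e580c_ag`: if the leading form of the nonnegative bivariate polynomial
`f` is not divisible by the fourth power of a real linear form (so that its real zeros at infinity
are double zeros), then the heat evolution `p_f (·, t)` is a sum of squares for all large `t`.
-/

namespace Pool.Agent.Q107.HF.NoFourthPower

open MvPolynomial

/-- Finite sums of squares of real polynomials in two variables. -/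
def IsSumOfSquares (f : MvPolynomial (Fin 2) ℝ) : Prop :=
  ∃ (n : ℕ) (g : Fin n → MvPolynomial (Fin 2) ℝ), f = ∑ i, g i ^ 2

/-- The Laplacian `Δ = ∂₁² + ∂₂²` on polynomials. -/
noncomputable def laplacian (f : MvPolynomial (Fin 2) ℝ) : MvPolynomial (Fin 2) ℝ :=
  ∑ i, pderiv i (pderiv i f)

/-- The heat evolution `p_f (·, t) = ∑ k, t ^ k / k! • Δ ^ k f`. The sum is finite; all terms with
`2 k > deg f` vanish, see the first part of `result`. -/
noncomputable def heatEvolution (f : MvPolynomial (Fin 2) ℝ) (t : ℝ) : MvPolynomial (Fin 2) ℝ :=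
  ∑ k ∈ Finset.range (f.totalDegree + 1), C (t ^ k / k.factorial) * laplacian^[k] f

/-- A list of summands for a sum of squares. -/
lemma exists_fin {x : MvPolynomial (Fin 2) ℝ} (h : IsSumSq x) : IsSumOfSquares x := by
  induction h using IsSumSq.rec' with
  | zero => exact ⟨0, Fin.elim0, by simp⟩
  | sq_add hx hs ih =>
    obtain ⟨n, g, hg⟩ := ih
    obtain ⟨r, hr⟩ := hx
    refine ⟨n + 1, Fin.cons r g, ?_⟩
    rw [Fin.sum_univ_succ]
    simp only [Fin.cons_zero, Fin.cons_succ]
    rw [hr, hg, sq]

/-- The first part says that `heatEvolution` is the whole sum over all `k ≥ 0`: every finite sum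
over `k < N` with `2 N > deg f` has the same value. The second part: if `f ≥ 0` on the plane and no
fourth power of a nonzero real linear form divides the leading form of `f`, then the heat evolution
of `f` is a sum of squares for all large times. -/
theorem result :
    (∀ (f : MvPolynomial (Fin 2) ℝ) (t : ℝ) (N : ℕ), f.totalDegree < 2 * N →
      ∑ k ∈ Finset.range N, C (t ^ k / k.factorial) * laplacian^[k] f = heatEvolution f t) ∧
    ∀ f : MvPolynomial (Fin 2) ℝ, (∀ x : Fin 2 → ℝ, 0 ≤ eval x f) →
      (∀ a b : ℝ, (a ≠ 0 ∨ b ≠ 0) →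
        ¬ (C a * X 0 + C b * X 1) ^ 4 ∣ homogeneousComponent f.totalDegree f) →
      ∃ T : ℝ, 0 < T ∧ ∀ t : ℝ, T ≤ t → IsSumOfSquares (heatEvolution f t) := by
  refine ⟨fun f t N h => Pool.Agent.Q107.HF.heat_eq h t, fun f hf h4 => ?_⟩
  obtain ⟨T, hT, h⟩ := Pool.Agent.Q107.HF.main_thm hf h4
  exact ⟨T, hT, fun t ht => exists_fin (h t ht)⟩

end Pool.Agent.Q107.HF.NoFourthPower
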