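import Pool.Agent.Q107.HF.Scale

/-!
# Interior points of the cone of sums of squares
-/

set_option autoImplicit false

namespace Pool.Agent.Q107.HF

open Finset MvPolynomial

/-- the index set of monomials of degree at most `k` -/
def idx (k : ℕ) : Finset (ℕ × ℕ) := (range (k + 1) ×ˢ range (k + 1)).filter fun p => p.1 + p.2 ≤ k

/-- monomials -/
noncomputable def mon (p : ℕ × ℕ) : P2 := X 0 ^ p.1 * X 1 ^ p.2

/-- the order unit -/
noncomputable def ee (k : ℕ) : P2 := ∑ p ∈ idx k, mon p * mon p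

lemma mem_idx {k : ℕ} {p : ℕ × ℕ} : p ∈ idx k ↔ p.1 + p.2 ≤ k := by
  simp only [idx, mem_filter, mem_product, mem_range]
  omega

lemma td_mon (p : ℕ × ℕ) : (mon p).totalDegree ≤ p.1 + p.2 := by
  unfold mon
  refine (totalDegree_mul _ _).trans ?_
  refine add_le_add ?_ ?_
  · exact (totalDegree_pow _ _).trans (by simp)
  · exact (totalDegree_pow _ _).trans (by simp)

lemma td_mul_le {f g : P2} {a b : ℕ} (hf : f.totalDegree ≤ a) (hg : g.totalDegree ≤ b) :
    (f * g).totalDegree ≤ a + b := (totalDegree_mul f g).trans (add_le_add hf hg)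

lemma td_sum_le {ι : Type*} (s : Finset ι) (f : ι → P2) {n : ℕ}
    (h : ∀ i ∈ s, (f i).totalDegree ≤ n) : (∑ i ∈ s, f i).totalDegree ≤ n :=
  totalDegree_finsetSum_le h

lemma td_ee (k : ℕ) : (ee k).totalDegree ≤ 2 * k := by
  refine td_sum_le _ _ fun p hp => ?_
  rw [mem_idx] at hp
  have := td_mul_le (td_mon p) (td_mon p)
  omega

lemma sumSq_ee_sub {k : ℕ} {p : ℕ × ℕ} (hp : p ∈ idx k) : IsSumSq (ee k - mon p * mon p) := by
  unfold ee
  rw [← sum_erase_eq_sub hp]
  exact IsSumSq.sum fun i _ => IsSumSq.mul_self _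

lemma split_mon (k : ℕ) (m : Fin 2 →₀ ℕ) (hm : m 0 + m 1 ≤ 2 * k) (a : ℝ) :
    ∃ p ∈ idx k, ∃ q ∈ idx k, monomial m a = C a * (mon p * mon q) := by
  refine ⟨(min (m 0) k, min (m 1) (k - min (m 0) k)), mem_idx.2 (by simp only; omega),
    (m 0 - min (m 0) k, m 1 - min (m 1) (k - min (m 0) k)), mem_idx.2 (by simp only; omega), ?_⟩
  rw [monomial_eq, Finsupp.prod_fintype _ _ (fun _ => pow_zero _), Fin.prod_univ_two]
  unfold mon
  congr 1
  have h0 : m 0 = min (m 0) k + (m 0 - min (m 0) k) := by omega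
  have h1 : m 1 = min (m 1) (k - min (m 0) k) + (m 1 - min (m 1) (k - min (m 0) k)) := by omega
  calc (X 0 ^ m 0 * X 1 ^ m 1 : P2) = X 0 ^ (min (m 0) k + (m 0 - min (m 0) k)) *
        X 1 ^ (min (m 1) (k - min (m 0) k) + (m 1 - min (m 1) (k - min (m 0) k))) := by
        rw [← h0, ← h1]
    _ = _ := by rw [pow_add, pow_add]; ring

lemma dom_mon {k : ℕ} {p q : ℕ × ℕ} (hp : p ∈ idx k) (hq : q ∈ idx k) (a c : ℝ) (hc : |c| ≤ 1) :
    IsSumSq (C |a| * ee k + C c * (C a * (mon p * mon q))) := by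
  have h1 := sumSq_C_mul (show (0 : ℝ) ≤ |a| / 2 by positivity) (sumSq_ee_sub hp)
  have h2 := sumSq_C_mul (show (0 : ℝ) ≤ |a| / 2 by positivity) (sumSq_ee_sub hq)
  have h3 : IsSumSq (C (|a| / 2) * (mon p * mon p + mon q * mon q) + C (c * a) *
      (mon p * mon q)) := by
    have hca : |c * a| ≤ |a| := by
      rw [abs_mul]
      exact mul_le_of_le_one_left (abs_nonneg a) hc
    have h4 : IsSumSq (C ((|a| - |c * a|) / 2) * (mon p * mon p + mon q * mon q)) :=
      sumSq_C_mul (by linarith) ((IsSumSq.mul_self _).add (IsSumSq.mul_self _))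
    rcases le_total 0 (c * a) with h | h
    · have h5 := sumSq_C_mul (show (0 : ℝ) ≤ |c * a| / 2 by positivity)
        (IsSumSq.mul_self (mon p + mon q))
      have h6 := h4.add h5
      rw [abs_of_nonneg h] at h6
      have e : C (|a| / 2) * (mon p * mon p + mon q * mon q) + C (c * a) * (mon p * mon q) =
          C ((|a| - c * a) / 2) * (mon p * mon p + mon q * mon q) +
          C (c * a / 2) * ((mon p + mon q) * (mon p + mon q)) := by
        have e1 : (C (|a| / 2) : P2) = C ((|a| - c * a) / 2) + C (c * a / 2) := by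
          rw [← map_add]; congr 1; ring
        have e2 : (C (c * a) : P2) = C (c * a / 2) + C (c * a / 2) := by
          rw [← map_add]; congr 1; ring
        rw [e1, e2]
        ring
      rw [e]
      exact h6
    · have h5 := sumSq_C_mul (show (0 : ℝ) ≤ |c * a| / 2 by positivity)
        (IsSumSq.mul_self (mon p - mon q))
      have h6 := h4.add h5
      rw [abs_of_nonpos h] at h6
      have e : C (|a| / 2) * (mon p * mon p + mon q * mon q) + C (c * a) * (mon p * mon q) =
          C ((|a| - -(c * a)) / 2) * (mon p * mon p + mon q * mon q) +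
          C (-(c * a) / 2) * ((mon p - mon q) * (mon p - mon q)) := by
        have e1 : (C (|a| / 2) : P2) = C ((|a| - -(c * a)) / 2) + C (-(c * a) / 2) := by
          rw [← map_add]; congr 1; ring
        have e2 : (C (c * a) : P2) = - (C (-(c * a) / 2) + C (-(c * a) / 2)) := by
          rw [← map_add, ← map_neg]; congr 1; ring
        rw [e1, e2]
        ring
      rw [e]
      exact h6
  have h7 := (h1.add h2).add h3
  have e : C |a| * ee k + C c * (C a * (mon p * mon q)) = C (|a| / 2) * (ee k - mon p * mon p) +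
      C (|a| / 2) * (ee k - mon q * mon q) + (C (|a| / 2) * (mon p * mon p + mon q * mon q) +
      C (c * a) * (mon p * mon q)) := by
    have e1 : (C |a| : P2) = C (|a| / 2) + C (|a| / 2) := by
      rw [← map_add]; congr 1; ring
    rw [e1, map_mul]
    ring
  rw [e]
  exact h7

/-- every polynomial of degree at most `2 k` is dominated by the order unit -/
theorem dom (k : ℕ) {x : P2} (hx : x.totalDegree ≤ 2 * k) :
    ∃ K : ℝ, 0 ≤ K ∧ ∀ c : ℝ, |c| ≤ 1 → IsSumSq (C K * ee k + C c * x) := by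
  refine ⟨∑ m ∈ x.support, |coeff m x|, sum_nonneg fun _ _ => abs_nonneg _, fun c hc => ?_⟩
  have e : C (∑ m ∈ x.support, |coeff m x|) * ee k + C c * x =
      ∑ m ∈ x.support, (C |coeff m x| * ee k + C c * monomial m (coeff m x)) := by
    rw [sum_add_distrib, ← sum_mul, ← mul_sum, ← map_sum]
    congr 2
    exact x.as_sum
  rw [e]
  refine IsSumSq.sum fun m hm => ?_
  obtain ⟨p, hp, q, hq, h⟩ := split_mon k m (td_le.1 hx m (mem_support_iff.1 hm)) (coeff m x)
  rw [h]
  exact dom_mon hp hq _ _ hc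

lemma eval_sumSq_nonneg {x : P2} (h : IsSumSq x) (v : Fin 2 → ℝ) : 0 ≤ eval v x :=
  (sumSq_map (eval v) h).nonneg

lemma eval_ee_pos (k : ℕ) : 0 < eval (0 : Fin 2 → ℝ) (ee k) := by
  have h : (0, 0) ∈ idx k := mem_idx.2 (by simp)
  have h1 := eval_sumSq_nonneg (sumSq_ee_sub h) 0
  simp only [mon, pow_zero, mul_one, map_sub, map_one, sub_nonneg] at h1
  linarith

/-- **Interior criterion.** -/
theorem interior (k : ℕ) {ι : Type} (I : Finset ι) (w : ι → P2)
    (hw : ∀ i ∈ I, (w i).totalDegree ≤ k)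
    (hspan : ∀ x : P2, x.totalDegree ≤ 2 * k →
      x ∈ Submodule.span ℝ {y : P2 | ∃ i ∈ I, ∃ u : P2, u.totalDegree ≤ k ∧ y = w i * u}) :
    ∃ c0 > 0, IsSumSq (∑ i ∈ I, w i * w i - C c0 * ee k) := by
  by_contra hno
  push Not at hno
  set T : P2 := ∑ i ∈ I, w i * w i with hT
  have hTs : IsSumSq T := IsSumSq.sum fun i _ => IsSumSq.mul_self _
  have hTd : T.totalDegree ≤ 2 * k := td_sum_le _ _ fun i hi => by
    have := td_mul_le (hw i hi) (hw i hi)
    omega
  let V : Submodule ℝ P2 := restrictTotalDegree (Fin 2) ℝ (2 * k)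
  have hV : ∀ x : P2, x ∈ V ↔ x.totalDegree ≤ 2 * k := fun x => mem_restrictTotalDegree _ _ _
  let e' : V := ⟨ee k, (hV _).2 (td_ee k)⟩
  let T' : V := ⟨T, (hV _).2 hTd⟩
  have he' : e' ≠ 0 := by
    intro h
    have h1 : ee k = 0 := congrArg Subtype.val h
    have h2 := eval_ee_pos k
    rw [h1] at h2
    simp at h2
  let s : PointedCone ℝ V :=
    { carrier := {x | ∃ b : ℝ, IsSumSq ((x : P2) + C b * T)}
      add_mem' := by
        rintro x y ⟨b, hb⟩ ⟨c, hc⟩
        refine ⟨b + c, ?_⟩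
        have := hb.add hc
        have e : ((x + y : V) : P2) + C (b + c) * T = (x : P2) + C b * T + ((y : P2) + C c * T) := by
          rw [map_add, Submodule.coe_add]
          ring
        rw [e]
        exact this
      zero_mem' := ⟨0, by simp⟩
      smul_mem' := by
        rintro ⟨c, hc⟩ x ⟨b, hb⟩
        refine ⟨c * b, ?_⟩
        have := sumSq_C_mul hc hb
        have e : (((⟨c, hc⟩ : {c : ℝ // 0 ≤ c}) • x : V) : P2) + C (c * b) * T =
            C c * ((x : P2) + C b * T) := by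
          have : (((⟨c, hc⟩ : {c : ℝ // 0 ≤ c}) • x : V) : P2) = C c * (x : P2) := by
            rw [← smul_eq_C_mul]; rfl
          rw [this, map_mul]
          ring
        rw [e]
        exact this }
  have hs : ∀ x : V, x ∈ s ↔ ∃ b : ℝ, IsSumSq ((x : P2) + C b * T) := fun x => Iff.rfl
  let f : V →ₗ.[ℝ] ℝ := LinearPMap.mkSpanSingleton e' 1 he'
  have hnon : ∀ x : f.domain, (x : V) ∈ s → 0 ≤ f x := by
    rintro ⟨x, hx⟩ hxs
    obtain ⟨a, rfl⟩ := Submodule.mem_span_singleton.1 hx
    have h1 : f ⟨a • e', hx⟩ = a := by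
      have := LinearPMap.mkSpanSingleton'_apply e' (1 : ℝ) (by
        intro c hc
        rcases smul_eq_zero.1 hc with h | h
        · simp [h]
        · exact absurd h he') a hx
      refine Eq.trans this ?_
      simp
    rw [h1]
    obtain ⟨b, hb⟩ := (hs _).1 hxs
    have hb' : IsSumSq (C a * ee k + C b * T) := by
      have e : ((a • e' : V) : P2) = C a * ee k := by rw [← smul_eq_C_mul]; rfl
      rw [← e]
      exact hb
    by_contra ha
    push Not at ha
    rcases lt_or_ge 0 b with h | h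
    · refine hno (-a / b) (div_pos (by linarith) h) ?_
      have h2 := sumSq_C_mul (show (0 : ℝ) ≤ 1 / b by positivity) hb'
      have e : C (1 / b) * (C a * ee k + C b * T) = T - C (-a / b) * ee k := by
        have e1 : (C (1 / b) * C b : P2) = 1 := by
          rw [← map_mul]
          have : 1 / b * b = 1 := by field_simp
          rw [this, map_one]
        have e2 : (C (1 / b) * C a : P2) = - C (-a / b) := by
          rw [← map_mul, ← map_neg]
          congr 1
          ring
        calc C (1 / b) * (C a * ee k + C b * T) = (C (1 / b) * C a) * ee k +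
              (C (1 / b) * C b) * T := by ring
          _ = _ := by rw [e1, e2]; ring
      rw [e] at h2
      exact h2
    · have h2 := eval_sumSq_nonneg hb' 0
      have h3 := eval_ee_pos k
      have h4 := eval_sumSq_nonneg hTs 0
      rw [map_add, map_mul, map_mul, eval_C, eval_C] at h2
      nlinarith
  have hden : ∀ y, ∃ x : f.domain, (x : V) + y ∈ s := by
    intro y
    obtain ⟨K, hK, h⟩ := dom k ((hV _).1 y.2)
    refine ⟨⟨K • e', Submodule.smul_mem _ _ (Submodule.mem_span_singleton_self e')⟩, ?_⟩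
    refine (hs _).2 ⟨0, ?_⟩
    have h1 := h 1 (by simp)
    have e : ((K • e' + y : V) : P2) + C 0 * T = C K * ee k + C 1 * (y : P2) := by
      have : ((K • e' : V) : P2) = C K * ee k := by rw [← smul_eq_C_mul]; rfl
      rw [Submodule.coe_add, this]
      simp
    change IsSumSq (((K • e' + y : V) : P2) + C 0 * T)
    rw [e]
    exact h1
  obtain ⟨g, hg1, hg2⟩ := riesz_extension s f hnon hden
  have hge : g e' = 1 := by
    have hm : e' ∈ f.domain := Submodule.mem_span_singleton_self e'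
    have h1 := hg1 ⟨e', hm⟩
    have h2 : f ⟨e', hm⟩ = 1 := LinearPMap.mkSpanSingleton_apply ℝ ℝ he' 1
    rw [h2] at h1
    exact h1
  have hgs : ∀ (x : P2) (hx : x ∈ V), IsSumSq x → 0 ≤ g ⟨x, hx⟩ := by
    intro x hx hsq
    exact hg2 _ ((hs _).2 ⟨0, by simpa using hsq⟩)
  have hgT : g T' = 0 := by
    apply le_antisymm
    · have h1 := hg2 (-T') ((hs _).2 ⟨1, by simp [T']⟩)
      rw [map_neg] at h1
      linarith
    · exact hgs _ _ hTs
  have hm2 : ∀ i ∈ I, ∀ u : P2, u.totalDegree ≤ k → w i * u ∈ V := by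
    intro i hi u hu
    have := td_mul_le (hw i hi) hu
    exact (hV _).2 (by omega)
  have hsum : g T' = ∑ i ∈ I.attach, g ⟨w i * w i, hm2 i i.2 _ (hw i i.2)⟩ := by
    rw [← map_sum]
    congr 1
    apply Subtype.ext
    rw [Submodule.coe_sum]
    change T = ∑ i ∈ I.attach, w i * w i
    rw [hT, ← sum_attach]
  have hsq0 : ∀ i (hi : i ∈ I), g ⟨w i * w i, hm2 i hi _ (hw i hi)⟩ = 0 := by
    intro i hi
    rw [hgT] at hsum
    have := (sum_eq_zero_iff_of_nonneg (s := I.attach)
      (f := fun j : {x // x ∈ I} => g ⟨w j * w j, hm2 j j.2 _ (hw j j.2)⟩)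
      (fun j _ => hgs _ _ (IsSumSq.mul_self (w j)))).1
      hsum.symm ⟨i, hi⟩ (mem_attach _ _)
    exact this
  have hcross : ∀ i (hi : i ∈ I) (u : P2) (hu : u.totalDegree ≤ k),
      g ⟨w i * u, hm2 i hi u hu⟩ = 0 := by
    intro i hi u hu
    have huu : u * u ∈ V := by
      have := td_mul_le hu hu
      exact (hV _).2 (by omega)
    have hq : ∀ l : ℝ, 0 ≤ 2 * l * g ⟨w i * u, hm2 i hi u hu⟩ + g ⟨u * u, huu⟩ := by
      intro l
      have hmem : (C l * w i + u) * (C l * w i + u) ∈ V := by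
        have h1 : (C l * w i + u).totalDegree ≤ k :=
          (totalDegree_add _ _).trans (max_le ((totalDegree_mul _ _).trans (by
            rw [totalDegree_C, zero_add]; exact hw i hi)) hu)
        have := td_mul_le h1 h1
        exact (hV _).2 (by omega)
      have h1 := hgs _ hmem (IsSumSq.mul_self _)
      have e : (⟨(C l * w i + u) * (C l * w i + u), hmem⟩ : V) =
          (l * l) • ⟨w i * w i, hm2 i hi _ (hw i hi)⟩ +
          (2 * l) • ⟨w i * u, hm2 i hi u hu⟩ + ⟨u * u, huu⟩ := by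
        apply Subtype.ext
        change (C l * w i + u) * (C l * w i + u) = (l * l) • (w i * w i) +
          (2 * l) • (w i * u) + u * u
        rw [smul_eq_C_mul, smul_eq_C_mul, map_mul, map_mul]
        have : (C (2 : ℝ) : P2) = 2 := map_ofNat _ 2
        rw [this]
        ring
      rw [e, map_add, map_add, map_smul, map_smul, hsq0 i hi] at h1
      simpa [smul_eq_mul] using h1
    by_contra hne
    have h2 := hq (-(g ⟨u * u, huu⟩ + 1) / (2 * g ⟨w i * u, hm2 i hi u hu⟩))
    have e : 2 * (-(g ⟨u * u, huu⟩ + 1) / (2 * g ⟨w i * u, hm2 i hi u hu⟩)) *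
        g ⟨w i * u, hm2 i hi u hu⟩ = -(g ⟨u * u, huu⟩ + 1) := by
      field_simp
    rw [e] at h2
    linarith
  have hall : ∀ x : P2, x ∈ Submodule.span ℝ
      {y : P2 | ∃ i ∈ I, ∃ u : P2, u.totalDegree ≤ k ∧ y = w i * u} →
      ∃ h : x ∈ V, g ⟨x, h⟩ = 0 := by
    intro x hx
    induction hx using Submodule.span_induction with
    | mem x hx =>
      obtain ⟨i, hi, u, hu, rfl⟩ := hx
      exact ⟨_, hcross i hi u hu⟩
    | zero => exact ⟨V.zero_mem, by
        have : (⟨0, V.zero_mem⟩ : V) = 0 := rfl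
        rw [this, map_zero]⟩
    | add x y _ _ hx hy =>
      obtain ⟨hx1, hx2⟩ := hx
      obtain ⟨hy1, hy2⟩ := hy
      refine ⟨V.add_mem hx1 hy1, ?_⟩
      have : (⟨x + y, V.add_mem hx1 hy1⟩ : V) = ⟨x, hx1⟩ + ⟨y, hy1⟩ := rfl
      rw [this, map_add, hx2, hy2, add_zero]
    | smul a x _ hx =>
      obtain ⟨hx1, hx2⟩ := hx
      refine ⟨V.smul_mem a hx1, ?_⟩
      have : (⟨a • x, V.smul_mem a hx1⟩ : V) = a • ⟨x, hx1⟩ := rfl
      rw [this, map_smul, hx2, smul_zero]
  obtain ⟨h1, h2⟩ := hall (ee k) (hspan _ (td_ee k))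
  have h3 : g e' = 0 := h2
  rw [hge] at h3
  exact one_ne_zero h3

end Pool.Agent.Q107.HF
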