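import Pool.Agent.Q107.HF.Heat

/-!
# Scaling, sums of squares
-/

set_option autoImplicit false

namespace Pool.Agent.Q107.HF

open Finset MvPolynomial

/-- the heat evolution -/
noncomputable def heat (f : P2) (t : ℝ) : P2 :=
  ∑ k ∈ range (f.totalDegree + 1), C (t ^ k / k.factorial) * lap^[k] f

/-- substitution `x ↦ c x` -/
noncomputable def sg (c : ℝ) : P2 →ₐ[ℝ] P2 := aeval (fun i => C c * X i)

lemma sg_monomial (c : ℝ) (m : Fin 2 →₀ ℕ) (a : ℝ) :
    sg c (monomial m a) = monomial m (a * c ^ (m 0 + m 1)) := by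
  rw [sg, aeval_monomial, Finsupp.prod_fintype _ _ (fun _ => pow_zero _), Fin.prod_univ_two,
    mul_pow, mul_pow, algebraMap_eq]
  have h : (monomial m (a * c ^ (m 0 + m 1)) : P2) = C (a * c ^ (m 0 + m 1)) *
      (X 0 ^ m 0 * X 1 ^ m 1) := by
    rw [monomial_eq, Finsupp.prod_fintype _ _ (fun _ => pow_zero _), Fin.prod_univ_two]
  rw [h, map_mul, pow_add, map_mul, map_pow, map_pow]
  ring

lemma coeff_sg (c : ℝ) (f : P2) (m : Fin 2 →₀ ℕ) :
    coeff m (sg c f) = coeff m f * c ^ (m 0 + m 1) := by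
  induction f using MvPolynomial.induction_on' with
  | monomial n a =>
    rw [sg_monomial, coeff_monomial, coeff_monomial]
    split_ifs with h
    · rw [h]
    · simp
  | add p q hp hq => rw [map_add, coeff_add, coeff_add, hp, hq, add_mul]

lemma td_sg (c : ℝ) (f : P2) : (sg c f).totalDegree ≤ f.totalDegree := by
  rw [td_le]
  intro m hm
  rw [coeff_sg] at hm
  exact td_le.1 le_rfl m (left_ne_zero_of_mul hm)

lemma pderiv_sg (i : Fin 2) (c : ℝ) (f : P2) : pderiv i (sg c f) = C c * sg c (pderiv i f) := by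
  induction f using MvPolynomial.induction_on with
  | C a => simp [sg]
  | add p q hp hq => simp only [map_add, hp, hq, mul_add]
  | mul_X p j hp =>
    rw [map_mul, pderiv_mul, hp, pderiv_mul, map_add, map_mul, map_mul]
    have h1 : sg c (X j : P2) = C c * X j := by simp [sg]
    have h2 : sg c (pderiv i (X j : P2)) = pderiv i (X j : P2) := by
      rw [pderiv_X, Pi.single_apply]
      split_ifs <;> simp
    rw [h1, h2, pderiv_C_mul]
    ring

lemma lap_C_mul (a : ℝ) (f : P2) : lap (C a * f) = C a * lap f := by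
  simp only [lap_eq, pderiv_C_mul, mul_add]

lemma lap_sg (c : ℝ) (f : P2) : lap (sg c f) = C (c ^ 2) * sg c (lap f) := by
  rw [lap_eq, lap_eq]
  simp only [pderiv_sg, pderiv_C_mul, map_add, map_pow]
  ring

lemma lap_iter_C_mul (a : ℝ) (f : P2) (k : ℕ) : lap^[k] (C a * f) = C a * lap^[k] f := by
  induction k generalizing f with
  | zero => rfl
  | succ k ih => rw [Function.iterate_succ_apply, lap_C_mul, ih]; rfl

lemma lap_iter_sg (c : ℝ) (f : P2) (k : ℕ) :
    lap^[k] (sg c f) = C (c ^ (2 * k)) * sg c (lap^[k] f) := by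
  induction k generalizing f with
  | zero => simp
  | succ k ih =>
    rw [Function.iterate_succ_apply, lap_sg, lap_iter_C_mul, ih, ← mul_assoc, ← map_mul,
      ← pow_add, Function.iterate_succ_apply]
    congr 3
    ring

lemma lap_iter_zero {f : P2} {k : ℕ} (h : f.totalDegree < 2 * k) : lap^[k] f = 0 := by
  rw [lap_iter]
  refine sum_eq_zero fun p hp => ?_
  have hp' : p.1 + p.2 = k := HasAntidiagonal.mem_antidiagonal.1 hp
  rw [iter2_zero 0 1 (by omega), smul_zero]

theorem heat_eq {f : P2} {N : ℕ} (h : f.totalDegree < 2 * N) (t : ℝ) :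
    ∑ k ∈ range N, C (t ^ k / k.factorial) * lap^[k] f = heat f t := by
  have key : ∀ N M : ℕ, f.totalDegree < 2 * N → N ≤ M →
      ∑ k ∈ range N, C (t ^ k / k.factorial) * lap^[k] f =
        ∑ k ∈ range M, C (t ^ k / k.factorial) * lap^[k] f := by
    intro N M hN hM
    apply sum_subset (range_subset_range.2 hM)
    intro k _ hk
    rw [mem_range, not_lt] at hk
    rw [lap_iter_zero (by omega), mul_zero]
  rw [heat, key N (max N (f.totalDegree + 1)) h (le_max_left _ _),
    key (f.totalDegree + 1) (max N (f.totalDegree + 1)) (by omega) (le_max_right _ _)]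

lemma H_sg {f : P2} {M : ℕ} (h : f.totalDegree < 2 * M) (c : ℝ) :
    H M (sg c f) = sg c (heat f (c ^ 2)) := by
  rw [← H_lap (lt_of_le_of_lt (td_sg c f) h), ← heat_eq h, map_sum]
  refine sum_congr rfl fun k _ => ?_
  rw [lap_iter_sg, map_mul, smul_eq_C_mul, ← mul_assoc, ← map_mul]
  have : sg c (C ((c ^ 2) ^ k / k.factorial) : P2) = C ((c ^ 2) ^ k / k.factorial) := by
    simp [sg, algebraMap_eq]
  rw [this, ← pow_mul]
  congr 2
  field_simp

lemma sg_sg (a b : ℝ) (hab : a * b = 1) (f : P2) : sg a (sg b f) = f := by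
  ext m
  rw [coeff_sg, coeff_sg, mul_assoc, ← mul_pow, mul_comm b a, hab, one_pow, mul_one]

lemma sumSq_map {A B : Type*} [CommSemiring A] [CommSemiring B] (φ : A →+* B) {x : A}
    (h : IsSumSq x) : IsSumSq (φ x) := by
  induction h using IsSumSq.rec' with
  | zero => simp
  | sq_add hx hs ih =>
    rw [map_add]
    obtain ⟨r, rfl⟩ := hx
    rw [map_mul]
    exact (IsSumSq.mul_self _).add ih

lemma sumSq_C {c : ℝ} (hc : 0 ≤ c) : IsSumSq (C c : P2) := by
  rw [← Real.mul_self_sqrt hc, map_mul]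
  exact IsSumSq.mul_self _

lemma sumSq_C_mul {c : ℝ} (hc : 0 ≤ c) {f : P2} (hf : IsSumSq f) : IsSumSq (C c * f) :=
  (sumSq_C hc).mul hf

lemma sumSq_smul {c : ℝ} (hc : 0 ≤ c) {f : P2} (hf : IsSumSq f) : IsSumSq (c • f) := by
  rw [smul_eq_C_mul]
  exact sumSq_C_mul hc hf

theorem heat_sumSq {f : P2} {M : ℕ} (h : f.totalDegree < 2 * M) {c : ℝ} (hc : c ≠ 0)
    (hs : IsSumSq (H M (sg c f))) : IsSumSq (heat f (c ^ 2)) := by
  rw [H_sg h] at hs
  have := sumSq_map (sg c⁻¹ : P2 →ₐ[ℝ] P2).toRingHom hs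
  have h2 : (sg c⁻¹ : P2 →ₐ[ℝ] P2).toRingHom (sg c (heat f (c ^ 2))) = heat f (c ^ 2) :=
    sg_sg _ _ (inv_mul_cancel₀ hc) _
  rwa [h2] at this

/-- the heat operator of a sum of squares is a sum of squares -/
lemma H_sumSq_sq {g : P2} {M : ℕ} (hg : g.totalDegree < M) : IsSumSq (H M (g * g)) := by
  rw [H_sq hg]
  refine IsSumSq.sum fun n _ => IsSumSq.sum fun m _ => sumSq_smul (by positivity) ?_
  exact IsSumSq.mul_self _

/-- scaled polynomial with top degree `N` -/
noncomputable def fs (f : P2) (N : ℕ) (s : ℝ) : P2 :=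
  ∑ j ∈ range (N + 1), C (s ^ j) * homogeneousComponent (N - j) f

lemma sg_hom (c : ℝ) {f : P2} {n : ℕ} (h : f.IsHomogeneous n) : sg c f = C (c ^ n) * f := by
  ext m
  rw [coeff_sg, coeff_C_mul]
  by_cases h0 : coeff m f = 0
  · simp [h0]
  · have := h h0
    rw [Finsupp.weight_apply, Finsupp.sum_fintype _ _ (by simp), Fin.sum_univ_two] at this
    simp only [Pi.one_apply, smul_eq_mul, mul_one] at this
    rw [← this, mul_comm]

lemma sg_fs {f : P2} {N : ℕ} (hf : f.totalDegree ≤ N) {c : ℝ} (hc : c ≠ 0) :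
    sg c f = C (c ^ N) * fs f N c⁻¹ := by
  have h1 : f = ∑ i ∈ range (N + 1), homogeneousComponent i f := by
    conv_lhs => rw [← sum_homogeneousComponent f]
    refine sum_subset (range_subset_range.2 (by omega)) fun i _ hi => ?_
    rw [mem_range, not_lt] at hi
    exact homogeneousComponent_eq_zero _ _ (by omega)
  conv_lhs => rw [h1]
  rw [map_sum, fs, mul_sum, ← sum_range_reflect]
  refine sum_congr rfl fun j hj => ?_
  rw [mem_range] at hj
  rw [sg_hom c (homogeneousComponent_isHomogeneous _ f), ← mul_assoc, ← map_mul]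
  have e : N + 1 - 1 - j = N - j := by omega
  rw [e]
  congr 2
  rw [inv_pow, ← div_eq_mul_inv, eq_div_iff (pow_ne_zero _ hc), ← pow_add]
  congr 1
  omega

theorem reduce {f : P2} {N M : ℕ} (hf : f.totalDegree ≤ N) (hM : N < 2 * M)
    (h : ∃ s0 > 0, ∀ s : ℝ, 0 < s → s ≤ s0 → IsSumSq (H M (fs f N s))) :
    ∃ T > 0, ∀ t : ℝ, T ≤ t → IsSumSq (heat f t) := by
  obtain ⟨s0, hs0, h⟩ := h
  refine ⟨(s0⁻¹) ^ 2, by positivity, fun t ht => ?_⟩
  have ht0 : 0 < t := lt_of_lt_of_le (by positivity) ht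
  have hc : 0 < Real.sqrt t := Real.sqrt_pos.2 ht0
  have e : t = (Real.sqrt t) ^ 2 := (Real.sq_sqrt ht0.le).symm
  rw [e]
  refine heat_sumSq (M := M) (by omega) hc.ne' ?_
  rw [sg_fs hf hc.ne', ← smul_eq_C_mul, H_smul]
  refine sumSq_smul (by positivity) (h _ (by positivity) ?_)
  rw [inv_le_comm₀ hc hs0]
  exact Real.le_sqrt_of_sq_le ht

end Pool.Agent.Q107.HF
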